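import Mathlib

set_option autoImplicit false

namespace Pool.Agent.P.MP_4cb405_co.Dp

open Finset

/-- `u n = 2^(-n)`. -/
noncomputable def u (n : ℕ) : ℝ := (1 / 2) ^ n

theorem u_pos (n : ℕ) : 0 < u n := by unfold u; positivity

theorem u_add (a b : ℕ) : u (a + b) = u a * u b := by unfold u; rw [pow_add]

theorem u_anti {a b : ℕ} (h : a ≤ b) : u b ≤ u a := by
  unfold u; exact pow_le_pow_of_le_one (by norm_num) (by norm_num) h

theorem u_zero : u 0 = 1 := by simp [u]

theorem u_one : u 1 = 1 / 2 := by simp [u]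

theorem u_le_one (n : ℕ) : u n ≤ 1 := by rw [← u_zero]; exact u_anti (Nat.zero_le _)

theorem u_mul_two_pow (n : ℕ) : u n * 2 ^ n = 1 := by
  unfold u; rw [← mul_pow]; norm_num

theorem u_pow (a b : ℕ) : u a ^ b = u (a * b) := by unfold u; rw [pow_mul]

theorem mul_u_le_one (q : ℕ) : (q : ℝ) * u q ≤ 1 := by
  have h : (q : ℝ) ≤ 2 ^ q := by exact_mod_cast (Nat.lt_two_pow_self).le
  calc (q : ℝ) * u q ≤ 2 ^ q * u q := mul_le_mul_of_nonneg_right h (u_pos q).le
    _ = 1 := by rw [mul_comm, u_mul_two_pow]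

/-- The tuple `a`, read on `[i, j]`, lies in `Z`. -/
def In (a : ℕ → ℕ) (i j : ℕ) (Z : Finset ℕ) : Prop := ∀ l, i ≤ l → l ≤ j → a l ∈ Z

theorem In.mono {a : ℕ → ℕ} {i j : ℕ} {Z Z' : Finset ℕ} (h : In a i j Z) (hs : Z ⊆ Z') :
    In a i j Z' := fun l h1 h2 => hs (h l h1 h2)

open Classical in
/-- Every weighted family of dense subsets of `S` has a common tuple with property `P`. -/
def Abs (P : (ℕ → ℕ) → Prop) (i j : ℕ) (S : Finset ℕ) (n C τ : ℝ) : Prop :=
  ∀ (ι : Type) (K : Finset ι) (ω : ι → ℝ) (Z : ι → Finset ℕ), (∀ k, 0 ≤ ω k) →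
    (∀ k ∈ K, Z k ⊆ S) → 0 < ∑ k ∈ K, ω k * max (((Z k).card : ℝ) / n - τ) 0 →
    ∃ a, P a ∧ C * ∑ k ∈ K, ω k * max (((Z k).card : ℝ) / n - τ) 0 ≤
      ∑ k ∈ K, if In a i j (Z k) then ω k else 0

theorem Abs.mono {P P' : (ℕ → ℕ) → Prop} {i j : ℕ} {S S' : Finset ℕ} {n C τ : ℝ}
    (h : Abs P i j S n C τ) (hP : ∀ a, P a → P' a) (hS : S' ⊆ S) : Abs P' i j S' n C τ := by
  intro ι K ω Z h0 hZ hpos
  obtain ⟨a, ha, hle⟩ := h ι K ω Z h0 (fun k hk => (hZ k hk).trans hS) hpos
  exact ⟨a, hP a ha, hle⟩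

theorem abs_empty (P : (ℕ → ℕ) → Prop) (i j : ℕ) (n C τ : ℝ) (hτ : 0 ≤ τ) :
    Abs P i j ∅ n C τ := by
  intro ι K ω Z _ hZ hpos
  exfalso
  have : ∑ k ∈ K, ω k * max (((Z k).card : ℝ) / n - τ) 0 = 0 := by
    refine Finset.sum_eq_zero (fun k hk => ?_)
    have : Z k = ∅ := Finset.subset_empty.1 (hZ k hk)
    rw [this]
    simp [hτ]
  rw [this] at hpos
  exact lt_irrefl _ hpos

theorem abs_leaf (P : (ℕ → ℕ) → Prop) (i j : ℕ) (A S : Finset ℕ) (τ : ℝ) (hτ : 0 ≤ τ)
    (hA : A.Nonempty) (hS : S ⊆ A) (hP : ∀ x, P (fun _ => x)) :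
    Abs P i j S A.card 1 τ := by
  classical
  intro ι K ω Z h0 hZ _
  have hAc : (0 : ℝ) < A.card := by exact_mod_cast hA.card_pos
  have h1 : ∑ k ∈ K, ω k * max (((Z k).card : ℝ) / A.card - τ) 0 ≤
      ∑ k ∈ K, ω k * ((Z k).card / A.card) := by
    refine Finset.sum_le_sum (fun k _ => mul_le_mul_of_nonneg_left ?_ (h0 k))
    exact max_le (by linarith) (by positivity)
  have h2 : ∑ x ∈ A, (∑ k ∈ K, if x ∈ Z k then ω k else 0) =
      ∑ k ∈ K, ω k * (Z k).card := by
    rw [Finset.sum_comm]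
    refine Finset.sum_congr rfl (fun k hk => ?_)
    rw [← Finset.sum_filter, Finset.sum_const, nsmul_eq_mul, mul_comm]
    congr 2
    rw [Finset.filter_mem_eq_inter, Finset.inter_eq_right.2 ((hZ k hk).trans hS)]
  have h3 : ∑ _x ∈ A, ∑ k ∈ K, ω k * (((Z k).card : ℝ) / A.card) ≤
      ∑ x ∈ A, (∑ k ∈ K, if x ∈ Z k then ω k else 0) := by
    rw [h2, Finset.sum_const, nsmul_eq_mul, Finset.mul_sum]
    refine le_of_eq (Finset.sum_congr rfl (fun k _ => ?_))
    field_simp
  obtain ⟨x, _, hx⟩ := Finset.exists_le_of_sum_le hA h3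
  refine ⟨fun _ => x, hP x, ?_⟩
  rw [one_mul]
  refine h1.trans (hx.trans (Finset.sum_le_sum (fun k _ => ?_)))
  by_cases hxk : x ∈ Z k
  · have : In (fun _ => x) i j (Z k) := fun _ _ _ => hxk
    simp [hxk, this]
  · simp only [hxk, if_false]
    split_ifs
    · exact h0 k
    · exact le_rfl

theorem abs_avg (P : (ℕ → ℕ) → Prop) (i j : ℕ) (A S : Finset ℕ) (C τ : ℝ) (hC : 0 ≤ C)
    (hA : A.Nonempty) (hS : S ⊆ A) (φ : ℕ → ℕ)
    (h : ∀ v, (A.filter (fun x => φ x = v)).Nonempty →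
      Abs P i j (S.filter (fun x => φ x = v)) (A.filter (fun x => φ x = v)).card C τ) :
    Abs P i j S A.card C τ := by
  classical
  intro ι K ω Z h0 hZ hpos
  have hAc : (0 : ℝ) < A.card := by exact_mod_cast hA.card_pos
  set V := A.image φ with hV
  let α : ℕ → ℝ := fun v => ((A.filter (fun x => φ x = v)).card : ℝ) / A.card
  let G : ℕ → ℝ := fun v => ∑ k ∈ K, ω k *
    max ((((Z k).filter (fun x => φ x = v)).card : ℝ) / (A.filter (fun x => φ x = v)).card - τ) 0
  have hne : ∀ v ∈ V, (A.filter (fun x => φ x = v)).Nonempty := by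
    intro v hv
    obtain ⟨x, hx, rfl⟩ := Finset.mem_image.1 hv
    exact ⟨x, Finset.mem_filter.2 ⟨hx, rfl⟩⟩
  have hfib : ∀ B : Finset ℕ, B ⊆ A →
      ∑ v ∈ V, ((B.filter (fun x => φ x = v)).card : ℝ) = B.card := by
    intro B hB
    have := Finset.card_eq_sum_card_fiberwise (f := φ) (s := B) (t := V)
      (fun x hx => Finset.mem_image_of_mem φ (hB hx))
    exact_mod_cast this.symm
  have hα : ∑ v ∈ V, α v = 1 := by
    simp only [α]
    rw [← Finset.sum_div, hfib A Subset.rfl, div_self hAc.ne']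
  have hk : ∀ k ∈ K, max (((Z k).card : ℝ) / A.card - τ) 0 ≤ ∑ v ∈ V, α v *
      max ((((Z k).filter (fun x => φ x = v)).card : ℝ) /
        (A.filter (fun x => φ x = v)).card - τ) 0 := by
    intro k hk
    refine max_le ?_ (Finset.sum_nonneg (fun v _ => mul_nonneg (by positivity) (le_max_right _ _)))
    have e : ((Z k).card : ℝ) / A.card - τ = ∑ v ∈ V, α v *
        ((((Z k).filter (fun x => φ x = v)).card : ℝ) /
          (A.filter (fun x => φ x = v)).card - τ) := by
      have : ∀ v ∈ V, α v * ((((Z k).filter (fun x => φ x = v)).card : ℝ) /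
          (A.filter (fun x => φ x = v)).card - τ) =
          (((Z k).filter (fun x => φ x = v)).card : ℝ) / A.card - α v * τ := by
        intro v hv
        have : (0 : ℝ) < (A.filter (fun x => φ x = v)).card := by
          exact_mod_cast (hne v hv).card_pos
        simp only [α]
        field_simp
      rw [Finset.sum_congr rfl this, Finset.sum_sub_distrib, ← Finset.sum_div,
        hfib _ ((hZ k hk).trans hS), ← Finset.sum_mul, hα, one_mul]
    rw [e]
    exact Finset.sum_le_sum (fun v _ => mul_le_mul_of_nonneg_left (le_max_left _ _) (by positivity))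
  set G0 := ∑ k ∈ K, ω k * max (((Z k).card : ℝ) / A.card - τ) 0 with hG0
  have hsum : ∑ v ∈ V, α v * G0 ≤ ∑ v ∈ V, α v * G v := by
    rw [← Finset.sum_mul, hα, one_mul]
    calc G0 ≤ ∑ k ∈ K, ω k * ∑ v ∈ V, α v *
          max ((((Z k).filter (fun x => φ x = v)).card : ℝ) /
            (A.filter (fun x => φ x = v)).card - τ) 0 :=
          Finset.sum_le_sum (fun k hk' => mul_le_mul_of_nonneg_left (hk k hk') (h0 k))
      _ = _ := by
          simp only [G, Finset.mul_sum]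
          rw [Finset.sum_comm]
          refine Finset.sum_congr rfl (fun v _ => Finset.sum_congr rfl (fun k _ => by ring))
  obtain ⟨v, hv, hle⟩ := Finset.exists_le_of_sum_le (hA.image φ) hsum
  have hαv : 0 < α v := by
    have : (0 : ℝ) < (A.filter (fun x => φ x = v)).card := by
      exact_mod_cast (hne v hv).card_pos
    simp only [α]
    positivity
  have hle' : G0 ≤ G v := le_of_mul_le_mul_left hle hαv
  obtain ⟨a, ha, hb⟩ := h v (hne v hv) ι K ω (fun k => (Z k).filter (fun x => φ x = v)) h0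
    (fun k hk => Finset.filter_subset_filter _ (hZ k hk)) (lt_of_lt_of_le hpos hle')
  refine ⟨a, ha, (mul_le_mul_of_nonneg_left hle' hC).trans (hb.trans ?_)⟩
  refine Finset.sum_le_sum (fun k _ => ?_)
  by_cases h1 : In a i j ((Z k).filter (fun x => φ x = v))
  · have h2 : In a i j (Z k) := h1.mono (Finset.filter_subset _ _)
    simp [h1, h2]
  · simp only [h1, if_false]
    split_ifs
    · exact h0 k
    · exact le_rfl

/-- First moment of the neighbourhood of a random tuple. -/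
theorem nb_moment (X Y : Finset ℕ) (E : ℕ → ℕ → Prop) [∀ x y, Decidable (E x y)]
    (hX : X.Nonempty) (p : ℝ) (hp : 0 ≤ p) (R : ℕ) (hR : 0 < R)
    (hdens : p * X.card * Y.card ≤ ∑ x ∈ X, ((Y.filter (fun y => E x y)).card : ℝ)) :
    p ^ R * X.card * (Y.card : ℝ) ^ R ≤ ∑ y ∈ Fintype.piFinset (fun _ : Fin R => Y),
      ((X.filter (fun x => ∀ r, E x (y r))).card : ℝ) := by
  classical
  have hXc : (0 : ℝ) < X.card := by exact_mod_cast hX.card_pos
  set T : Finset (Fin R → ℕ) := Fintype.piFinset (fun _ => Y) with hT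
  have h1 : ∑ y ∈ T, ((X.filter (fun x => ∀ r, E x (y r))).card : ℝ) =
      ∑ x ∈ X, ((Y.filter (fun y => E x y)).card : ℝ) ^ R := by
    have : ∀ y ∈ T, ((X.filter (fun x => ∀ r, E x (y r))).card : ℝ) =
        ∑ x ∈ X, if (∀ i, E x (y i)) then (1 : ℝ) else 0 := by
      intro y _
      simp
    rw [Finset.sum_congr rfl this, Finset.sum_comm]
    refine Finset.sum_congr rfl (fun x _ => ?_)
    have : (T.filter (fun y => ∀ i, E x (y i))) =
        Fintype.piFinset (fun _ : Fin R => Y.filter (fun y => E x y)) := by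
      ext y
      simp only [hT, mem_filter, Fintype.mem_piFinset]
      constructor
      · rintro ⟨h1, h2⟩ i
        exact ⟨h1 i, h2 i⟩
      · intro h
        exact ⟨fun i => (h i).1, fun i => (h i).2⟩
    rw [Finset.sum_ite, Finset.sum_const_zero, add_zero, Finset.sum_const, this]
    simp [Fintype.card_piFinset]
  rw [h1]
  obtain ⟨n, rfl⟩ : ∃ n, R = n + 1 := ⟨R - 1, by omega⟩
  have hJ := pow_sum_div_card_le_sum_pow (s := X)
    (f := fun x => ((Y.filter (fun y => E x y)).card : ℝ)) (fun i _ => by positivity) n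
  refine le_trans ?_ hJ
  rw [le_div_iff₀ (by positivity)]
  calc p ^ (n + 1) * X.card * (Y.card : ℝ) ^ (n + 1) * (X.card : ℝ) ^ n
      = (p * X.card * Y.card) ^ (n + 1) := by ring
    _ ≤ _ := pow_le_pow_left₀ (by positivity) hdens _

end Pool.Agent.P.MP_4cb405_co.Dp
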