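import Mathlib
import Pool.Agent.P.MP_4cb405_co.Dp.A

set_option autoImplicit false

namespace Pool.Agent.P.MP_4cb405_co.Dp

open Finset

open Classical in
/-- Dependent random choice for weighted families of contexts. -/
theorem wdrc {P : (ℕ → ℕ) → Prop} {i j : ℕ} {S : Finset ℕ} {n C τ : ℝ}
    (h : Abs P i j S n C τ) (hn : 0 < n) (hC : 0 < C) (hτ : 0 < τ)
    (E : ℕ → ℕ → Prop) (ι : Type) (K : Finset ι) (ω : ι → ℝ) (X Y : ι → Finset ℕ)
    (η p δ : ℝ) (R : ℕ) (hR : 0 < R) (hp : 0 ≤ p) (hδ : 0 ≤ δ) (h0 : ∀ k, 0 ≤ ω k)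
    (hXS : ∀ k ∈ K, X k ⊆ S) (hXne : ∀ k ∈ K, (X k).Nonempty) (hYne : ∀ k ∈ K, (Y k).Nonempty)
    (hX : ∀ k ∈ K, η * n ≤ (X k).card)
    (hdens : ∀ k ∈ K, p * (X k).card * (Y k).card ≤
      ∑ x ∈ X k, (((Y k).filter (fun y => E x y)).card : ℝ))
    (h1 : 2 * τ ≤ η * p ^ R) (h2 : 2 * δ ^ R ≤ C * τ) (hΩ : 0 < ∑ k ∈ K, ω k) :
    ∃ a, P a ∧ C * τ / 2 * ∑ k ∈ K, ω k ≤ ∑ k ∈ K,
      if In a i j (X k) ∧ δ * (Y k).card ≤
        ((Y k).filter (fun y => ∀ l, i ≤ l → l ≤ j → E (a l) y)).card then ω k else 0 := by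
  let T : ι → Finset (Fin R → ℕ) := fun k => Fintype.piFinset (fun _ => Y k)
  let K' : Finset ((_ : ι) × (Fin R → ℕ)) := K.sigma T
  let ω' : ((_ : ι) × (Fin R → ℕ)) → ℝ := fun z => ω z.1 / ((Y z.1).card : ℝ) ^ R
  let Z' : ((_ : ι) × (Fin R → ℕ)) → Finset ℕ := fun z =>
    (X z.1).filter (fun x => ∀ r, E x (z.2 r))
  have hYc : ∀ k ∈ K, (0 : ℝ) < ((Y k).card : ℝ) ^ R := fun k hk => by
    have : (0 : ℝ) < (Y k).card := by exact_mod_cast (hYne k hk).card_pos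
    positivity
  have hTc : ∀ k, ((T k).card : ℝ) = ((Y k).card : ℝ) ^ R := fun k => by
    simp [T, Fintype.card_piFinset]
  have hlow : τ * ∑ k ∈ K, ω k ≤ ∑ z ∈ K', ω' z * max (((Z' z).card : ℝ) / n - τ) 0 := by
    rw [Finset.sum_sigma, Finset.mul_sum]
    refine Finset.sum_le_sum (fun k hk => ?_)
    have hm := nb_moment (X k) (Y k) E (hXne k hk) p hp R hR (hdens k hk)
    have hY := hYc k hk
    have e1 : ∑ y ∈ T k, ω' ⟨k, y⟩ * (((Z' ⟨k, y⟩).card : ℝ) / n - τ) =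
        ω k / ((Y k).card : ℝ) ^ R * ((∑ y ∈ T k,
          (((X k).filter (fun x => ∀ r, E x (y r))).card : ℝ)) / n -
            ((Y k).card : ℝ) ^ R * τ) := by
      simp only [ω', Z']
      rw [← Finset.mul_sum, Finset.sum_sub_distrib, ← Finset.sum_div, Finset.sum_const,
        nsmul_eq_mul, hTc]
    have e2 : τ * ((Y k).card : ℝ) ^ R ≤ (∑ y ∈ T k,
          (((X k).filter (fun x => ∀ r, E x (y r))).card : ℝ)) / n -
            ((Y k).card : ℝ) ^ R * τ := by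
      have e3 : 2 * τ * ((Y k).card : ℝ) ^ R * n ≤ p ^ R * (X k).card * ((Y k).card : ℝ) ^ R := by
        have := hX k hk
        have hpR : 0 ≤ p ^ R := by positivity
        calc 2 * τ * ((Y k).card : ℝ) ^ R * n ≤ η * p ^ R * ((Y k).card : ℝ) ^ R * n := by gcongr
          _ = p ^ R * (η * n) * ((Y k).card : ℝ) ^ R := by ring
          _ ≤ _ := by gcongr
      have e4 : 2 * τ * ((Y k).card : ℝ) ^ R ≤ (∑ y ∈ T k,
          (((X k).filter (fun x => ∀ r, E x (y r))).card : ℝ)) / n := by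
        rw [le_div_iff₀ hn]
        refine e3.trans ?_
        convert hm using 3
      linarith
    calc τ * ω k = ω k / ((Y k).card : ℝ) ^ R * (τ * ((Y k).card : ℝ) ^ R) := by
          field_simp
      _ ≤ _ := mul_le_mul_of_nonneg_left e2 (div_nonneg (h0 k) hY.le)
      _ = _ := e1.symm
      _ ≤ _ := Finset.sum_le_sum (fun y _ => mul_le_mul_of_nonneg_left (le_max_left _ _)
          (div_nonneg (h0 k) hY.le))
  obtain ⟨a, ha, hb⟩ := h _ K' ω' Z' (fun z => div_nonneg (h0 _) (by positivity))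
    (fun z hz => (Finset.filter_subset _ _).trans (hXS _ (Finset.mem_sigma.1 hz).1))
    (lt_of_lt_of_le (mul_pos hτ hΩ) hlow)
  refine ⟨a, ha, ?_⟩
  have hup : (∑ z ∈ K', if In a i j (Z' z) then ω' z else 0) ≤ ∑ k ∈ K,
      ((if In a i j (X k) ∧ δ * (Y k).card ≤
        ((Y k).filter (fun y => ∀ l, i ≤ l → l ≤ j → E (a l) y)).card then ω k else 0) +
        δ ^ R * ω k) := by
    rw [Finset.sum_sigma]
    refine Finset.sum_le_sum (fun k hk => ?_)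
    have hY := hYc k hk
    set N := (Y k).filter (fun y => ∀ l, i ≤ l → l ≤ j → E (a l) y) with hN
    by_cases hin : In a i j (X k)
    · have e1 : (∑ y ∈ T k, if In a i j (Z' ⟨k, y⟩) then ω' ⟨k, y⟩ else 0) ≤
          ω k / ((Y k).card : ℝ) ^ R * (N.card : ℝ) ^ R := by
        rw [← Finset.sum_filter]
        have hsub : (T k).filter (fun y => In a i j (Z' ⟨k, y⟩)) ⊆
            Fintype.piFinset (fun _ : Fin R => N) := by
          intro y hy
          obtain ⟨hy1, hy2⟩ := Finset.mem_filter.1 hy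
          refine Fintype.mem_piFinset.2 (fun r => Finset.mem_filter.2
            ⟨Fintype.mem_piFinset.1 hy1 r, fun l l1 l2 => ?_⟩)
          exact (Finset.mem_filter.1 (hy2 l l1 l2)).2 r
        have hc : (((T k).filter (fun y => In a i j (Z' ⟨k, y⟩))).card : ℝ) ≤
            (N.card : ℝ) ^ R := by
          have := Finset.card_le_card hsub
          rw [Fintype.card_piFinset] at this
          simp only [prod_const, card_univ, Fintype.card_fin] at this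
          exact_mod_cast this
        simp only [ω']
        rw [Finset.sum_const, nsmul_eq_mul, mul_comm]
        exact mul_le_mul_of_nonneg_left hc (div_nonneg (h0 k) hY.le)
      refine e1.trans ?_
      by_cases hd : δ * (Y k).card ≤ N.card
      · rw [if_pos ⟨hin, hd⟩]
        have e2 : (N.card : ℝ) ^ R ≤ ((Y k).card : ℝ) ^ R := by
          have : (N.card : ℝ) ≤ (Y k).card := by
            exact_mod_cast Finset.card_le_card (Finset.filter_subset _ _)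
          gcongr
        have e3 : ω k / ((Y k).card : ℝ) ^ R * (N.card : ℝ) ^ R ≤ ω k := by
          calc _ ≤ ω k / ((Y k).card : ℝ) ^ R * ((Y k).card : ℝ) ^ R :=
                mul_le_mul_of_nonneg_left e2 (div_nonneg (h0 k) hY.le)
            _ = ω k := by field_simp
        have : 0 ≤ δ ^ R * ω k := mul_nonneg (by positivity) (h0 k)
        linarith
      · rw [if_neg (fun hh => hd hh.2), zero_add]
        have e2 : (N.card : ℝ) ^ R ≤ (δ * (Y k).card) ^ R :=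
          pow_le_pow_left₀ (by positivity) (not_le.1 hd).le _
        calc _ ≤ ω k / ((Y k).card : ℝ) ^ R * (δ * (Y k).card) ^ R :=
              mul_le_mul_of_nonneg_left e2 (div_nonneg (h0 k) hY.le)
          _ = _ := by rw [mul_pow]; field_simp
    · have e1 : (∑ y ∈ T k, if In a i j (Z' ⟨k, y⟩) then ω' ⟨k, y⟩ else 0) = 0 := by
        refine Finset.sum_eq_zero (fun y _ => if_neg (fun hh => hin ?_))
        exact hh.mono (Finset.filter_subset _ _)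
      rw [e1, if_neg (fun hh => hin hh.1), zero_add]
      exact mul_nonneg (by positivity) (h0 k)
  rw [Finset.sum_add_distrib, ← Finset.mul_sum] at hup
  have e5 : C * (τ * ∑ k ∈ K, ω k) ≤ C * ∑ z ∈ K', ω' z * max (((Z' z).card : ℝ) / n - τ) 0 :=
    mul_le_mul_of_nonneg_left hlow hC.le
  have e6 : δ ^ R * ∑ k ∈ K, ω k ≤ C * τ / 2 * ∑ k ∈ K, ω k :=
    mul_le_mul_of_nonneg_right (by linarith) hΩ.le
  nlinarith [e5.trans (hb.trans hup)]

open Classical in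
/-- First one side (by dependent random choice), then the other side in the neighbourhood. -/
theorem two_step {P₁ P₂ : (ℕ → ℕ) → Prop} {i₁ j₁ i₂ j₂ : ℕ} {S₁ S₂ : Finset ℕ}
    {n₁ C₁ τ₁ n₂ C₂ τ₂ : ℝ} (h₁ : Abs P₁ i₁ j₁ S₁ n₁ C₁ τ₁) (h₂ : Abs P₂ i₂ j₂ S₂ n₂ C₂ τ₂)
    (hn₁ : 0 < n₁) (hC₁ : 0 < C₁) (hτ₁ : 0 < τ₁) (hn₂ : 0 < n₂) (hC₂ : 0 < C₂) (hτ₂ : 0 < τ₂)
    (E : ℕ → ℕ → Prop) (ι : Type) (K : Finset ι) (ω : ι → ℝ) (X Y : ι → Finset ℕ)
    (η p δ : ℝ) (R : ℕ) (hR : 0 < R) (hp : 0 ≤ p) (hδ : 0 ≤ δ) (h0 : ∀ k, 0 ≤ ω k)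
    (hXS : ∀ k ∈ K, X k ⊆ S₁) (hYS : ∀ k ∈ K, Y k ⊆ S₂)
    (hXne : ∀ k ∈ K, (X k).Nonempty) (hYne : ∀ k ∈ K, (Y k).Nonempty)
    (hX : ∀ k ∈ K, η * n₁ ≤ (X k).card) (hY : ∀ k ∈ K, η * n₂ ≤ (Y k).card)
    (hdens : ∀ k ∈ K, p * (X k).card * (Y k).card ≤
      ∑ x ∈ X k, (((Y k).filter (fun y => E x y)).card : ℝ))
    (h1 : 2 * τ₁ ≤ η * p ^ R) (h2 : 2 * δ ^ R ≤ C₁ * τ₁) (h3 : 2 * τ₂ ≤ η * δ)
    (hΩ : 0 < ∑ k ∈ K, ω k) :
    ∃ a₁ a₂, P₁ a₁ ∧ P₂ a₂ ∧ C₂ * τ₂ * (C₁ * τ₁ / 2) * ∑ k ∈ K, ω k ≤ ∑ k ∈ K,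
      if In a₁ i₁ j₁ (X k) ∧ In a₂ i₂ j₂ (Y k) ∧
        ∀ l l', i₁ ≤ l → l ≤ j₁ → i₂ ≤ l' → l' ≤ j₂ → E (a₁ l) (a₂ l') then ω k else 0 := by
  obtain ⟨a₁, ha₁, hb⟩ := wdrc h₁ hn₁ hC₁ hτ₁ E ι K ω X Y η p δ R hR hp hδ h0 hXS hXne hYne hX
    hdens h1 h2 hΩ
  let N : ι → Finset ℕ := fun k => (Y k).filter (fun y => ∀ l, i₁ ≤ l → l ≤ j₁ → E (a₁ l) y)
  let ω' : ι → ℝ := fun k => if In a₁ i₁ j₁ (X k) ∧ δ * (Y k).card ≤ (N k).card then ω k else 0
  have h0' : ∀ k, 0 ≤ ω' k := fun k => by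
    simp only [ω']
    split_ifs
    · exact h0 k
    · exact le_rfl
  have hlow : τ₂ * ∑ k ∈ K, ω' k ≤ ∑ k ∈ K, ω' k * max (((N k).card : ℝ) / n₂ - τ₂) 0 := by
    rw [Finset.mul_sum]
    refine Finset.sum_le_sum (fun k hk => ?_)
    simp only [ω']
    split_ifs with hh
    · rw [mul_comm]
      refine mul_le_mul_of_nonneg_left (le_trans ?_ (le_max_left _ _)) (h0 k)
      have e1 : 2 * τ₂ ≤ ((N k).card : ℝ) / n₂ := by
        rw [le_div_iff₀ hn₂]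
        have := hY k hk
        calc 2 * τ₂ * n₂ ≤ η * δ * n₂ := by gcongr
          _ = δ * (η * n₂) := by ring
          _ ≤ δ * (Y k).card := by gcongr
          _ ≤ _ := hh.2
      linarith
    · simp
  have hpos : 0 < C₁ * τ₁ / 2 * ∑ k ∈ K, ω k := by positivity
  have hb' : C₁ * τ₁ / 2 * ∑ k ∈ K, ω k ≤ ∑ k ∈ K, ω' k := hb
  obtain ⟨a₂, ha₂, hc⟩ := h₂ ι K ω' N h0'
    (fun k hk => (Finset.filter_subset _ _).trans (hYS k hk))
    (lt_of_lt_of_le (mul_pos hτ₂ (lt_of_lt_of_le hpos hb')) hlow)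
  refine ⟨a₁, a₂, ha₁, ha₂, ?_⟩
  calc C₂ * τ₂ * (C₁ * τ₁ / 2) * ∑ k ∈ K, ω k
      = C₂ * (τ₂ * (C₁ * τ₁ / 2 * ∑ k ∈ K, ω k)) := by ring
    _ ≤ C₂ * (τ₂ * ∑ k ∈ K, ω' k) := by gcongr
    _ ≤ _ := mul_le_mul_of_nonneg_left hlow hC₂.le
    _ ≤ _ := hc
    _ ≤ _ := by
      refine Finset.sum_le_sum (fun k _ => ?_)
      by_cases g1 : In a₂ i₂ j₂ (N k)
      · by_cases g2 : In a₁ i₁ j₁ (X k) ∧ δ * (Y k).card ≤ (N k).card
        · rw [if_pos g1, if_pos ⟨g2.1, g1.mono (Finset.filter_subset _ _),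
            fun l l' a b c d => (Finset.mem_filter.1 (g1 l' c d)).2 l a b⟩]
          simp only [ω']
          rw [if_pos g2]
        · rw [if_pos g1]
          simp only [ω']
          rw [if_neg g2]
          split_ifs
          · exact h0 k
          · exact le_rfl
      · rw [if_neg g1]
        split_ifs
        · exact h0 k
        · exact le_rfl

end Pool.Agent.P.MP_4cb405_co.Dp
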