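import Mathlib
import Pool.Agent.P.MP_4cb405_co.Dp.B

set_option autoImplicit false

namespace Pool.Agent.P.MP_4cb405_co.Dp

open Finset

/-- The slice of `Q` in the block `v` of length `H`. -/
def sl (H : ℕ) (Q : Finset ℕ) (v : ℕ) : Finset ℕ := Q.filter (fun x => x / H = v)

/-- Colour `c` is recovered in `Z` between the blocks `v` and `v'`. -/
def Rec (f : ℕ → ℕ → ℕ) (q c H : ℕ) (Q Z : Finset ℕ) (η : ℝ) (v v' : ℕ) : Prop :=
  v + 2 ≤ v' ∧ ∃ X Y : Finset ℕ, X ⊆ sl H Z v ∧ Y ⊆ sl H Z v' ∧ X.Nonempty ∧ Y.Nonempty ∧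
    η * (sl H Q v).card ≤ X.card ∧ η * (sl H Q v').card ≤ Y.card ∧
    u q * X.card * Y.card ≤ ∑ x ∈ X, ((Y.filter (fun y => f x y = c)).card : ℝ)

open Classical in
/-- In every dense subset of `Q` the colour `c` is recovered at many pairs of blocks. -/
def Good (f : ℕ → ℕ → ℕ) (q c H : ℕ) (Q : Finset ℕ) (b γ k : ℕ) : Prop :=
  ∀ Z ⊆ Q, u b * Q.card ≤ Z.card → u k * (Q.card : ℝ) ^ 2 ≤
    (((Q ×ˢ Q).filter (fun z => Rec f q c H Q Z (u γ * Z.card / Q.card)
      (z.1 / H) (z.2 / H))).card : ℝ)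

theorem majority (q : ℕ) (hq : 0 < q) (f : ℕ → ℕ → ℕ) (hf : ∀ x y, f x y < q)
    (X Y : Finset ℕ) :
    ∃ c < q, u q * X.card * Y.card ≤ ∑ x ∈ X, ((Y.filter (fun y => f x y = c)).card : ℝ) := by
  have h1 : ∑ c ∈ range q, ∑ x ∈ X, ((Y.filter (fun y => f x y = c)).card : ℝ) =
      X.card * Y.card := by
    rw [Finset.sum_comm]
    have : ∀ x ∈ X, ∑ c ∈ range q, ((Y.filter (fun y => f x y = c)).card : ℝ) = Y.card := by
      intro x _
      have := Finset.card_eq_sum_card_fiberwise (f := fun y => f x y) (s := Y) (t := range q)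
        (fun y _ => by simpa using hf x y)
      exact_mod_cast this.symm
    rw [Finset.sum_congr rfl this]
    simp
  have h2 : ∑ _c ∈ range q, u q * X.card * Y.card ≤
      ∑ c ∈ range q, ∑ x ∈ X, ((Y.filter (fun y => f x y = c)).card : ℝ) := by
    rw [h1]
    simp only [sum_const, card_range, nsmul_eq_mul]
    calc (q : ℝ) * (u q * X.card * Y.card) = (q * u q) * (X.card * Y.card) := by ring
      _ ≤ 1 * (X.card * Y.card) := by gcongr; exact mul_u_le_one q
      _ = _ := one_mul _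
  obtain ⟨c, hc, hc2⟩ := Finset.exists_le_of_sum_le ⟨0, by simpa using hq⟩ h2
  exact ⟨c, by simpa using hc, hc2⟩

theorem sum_sl_le (H : ℕ) (Q V : Finset ℕ) : ∑ v ∈ V, ((sl H Q v).card : ℝ) ≤ Q.card := by
  classical
  have h := Finset.card_eq_sum_card_fiberwise (f := fun x => x / H)
    (s := Q.filter (fun x => x / H ∈ V)) (t := V) (fun x hx => (Finset.mem_filter.1 hx).2)
  have h2 : ∑ v ∈ V, (sl H Q v).card = (Q.filter (fun x => x / H ∈ V)).card := by
    rw [h]
    refine Finset.sum_congr rfl (fun v hv => ?_)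
    congr 1
    ext x
    simp only [sl, mem_filter]
    constructor
    · rintro ⟨a, b⟩
      exact ⟨⟨a, b ▸ hv⟩, b⟩
    · rintro ⟨⟨a, _⟩, b⟩
      exact ⟨a, b⟩
  have h3 : ∑ v ∈ V, (sl H Q v).card ≤ Q.card := by
    rw [h2]; exact Finset.card_le_card (Finset.filter_subset _ _)
  exact_mod_cast h3

/-- Points of `Z` in blocks where `Z` is thin relative to `Q`. -/
theorem thin_le (H : ℕ) (Q Z : Finset ℕ) (η : ℝ) (hη : 0 ≤ η) :
    ((Z.filter (fun x => ((sl H Z (x / H)).card : ℝ) < η * (sl H Q (x / H)).card)).card : ℝ) ≤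
      η * Q.card := by
  classical
  set B := Z.filter (fun x => ((sl H Z (x / H)).card : ℝ) < η * (sl H Q (x / H)).card) with hB
  have h := Finset.card_eq_sum_card_fiberwise (f := fun x => x / H) (s := B)
    (t := B.image (fun x => x / H)) (fun x hx => Finset.mem_image_of_mem _ hx)
  have h1 : (B.card : ℝ) = ∑ v ∈ B.image (fun x => x / H),
      ((B.filter (fun x => x / H = v)).card : ℝ) := by exact_mod_cast h
  rw [h1]
  calc _ ≤ ∑ v ∈ B.image (fun x => x / H), η * (sl H Q v).card := by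
        refine Finset.sum_le_sum (fun v hv => ?_)
        obtain ⟨x, hx, rfl⟩ := Finset.mem_image.1 hv
        have h2 := (Finset.mem_filter.1 hx).2
        have h3 : ((B.filter (fun y => y / H = x / H)).card : ℝ) ≤ (sl H Z (x / H)).card := by
          exact_mod_cast Finset.card_le_card
            (Finset.filter_subset_filter _ (Finset.filter_subset _ _))
        linarith
    _ ≤ _ := by
        rw [← Finset.mul_sum]
        exact mul_le_mul_of_nonneg_left (sum_sl_le H Q _) hη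

/-- A set without heavy blocks has many pairs in distant blocks. -/
theorem far_pairs (H : ℕ) (G : Finset ℕ) (z : ℝ) (hG : 3 / 4 * z ≤ G.card)
    (hs : ∀ v, ((sl H G v).card : ℝ) ≤ z / 16) :
    3 / 16 * z ^ 2 ≤ (((G ×ˢ G).filter (fun p => p.1 / H + 2 ≤ p.2 / H)).card : ℝ) := by
  classical
  have hz : 0 ≤ z := by
    have := hs 0
    have h0 : (0 : ℝ) ≤ (sl H G 0).card := by positivity
    linarith
  have e1 : (((G ×ˢ G).filter (fun p => p.1 / H + 2 ≤ p.2 / H)).card : ℝ) =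
      ∑ x ∈ G, ∑ y ∈ G, if x / H + 2 ≤ y / H then (1 : ℝ) else 0 := by
    rw [Finset.card_filter, Nat.cast_sum, Finset.sum_product]
    simp
  have e2 : ∑ x ∈ G, ∑ y ∈ G, (if x / H + 2 ≤ y / H then (1 : ℝ) else 0) =
      ∑ x ∈ G, ∑ y ∈ G, if y / H + 2 ≤ x / H then (1 : ℝ) else 0 := Finset.sum_comm
  have e3 : ∀ x ∈ G, (G.card : ℝ) - 3 * (z / 16) ≤
      (∑ y ∈ G, if x / H + 2 ≤ y / H then (1 : ℝ) else 0) +
        ∑ y ∈ G, if y / H + 2 ≤ x / H then (1 : ℝ) else 0 := by
    intro x _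
    have f1 : ∀ v, ∑ y ∈ G, (if y / H = v then (1 : ℝ) else 0) ≤ z / 16 := fun v => by
      refine le_trans (le_of_eq ?_) (hs v)
      simp [sl]
    have f2 : (G.card : ℝ) ≤ ∑ y ∈ G, ((if x / H + 2 ≤ y / H then (1 : ℝ) else 0) +
        (if y / H + 2 ≤ x / H then (1 : ℝ) else 0) + (if y / H = x / H then (1 : ℝ) else 0) +
        (if y / H = x / H + 1 then (1 : ℝ) else 0) +
        (if y / H = x / H - 1 then (1 : ℝ) else 0)) := by
      rw [Finset.card_eq_sum_ones, Nat.cast_sum]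
      refine Finset.sum_le_sum (fun y _ => ?_)
      generalize x / H = a
      generalize y / H = b
      split_ifs <;> first | omega | norm_num
    simp only [Finset.sum_add_distrib] at f2
    linarith [f1 (x / H), f1 (x / H + 1), f1 (x / H - 1)]
  have e4 := Finset.sum_le_sum e3
  rw [Finset.sum_add_distrib, ← e2, Finset.sum_const, nsmul_eq_mul] at e4
  rw [e1]
  nlinarith

/-- The ladder: every set has a dense subset that is good for some colour or lies in one block. -/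
theorem carve (q : ℕ) (hq : 0 < q) (f : ℕ → ℕ → ℕ) (hf : ∀ x y, f x y < q) (H : ℕ)
    (T b : ℕ → ℕ) (hT : ∀ c < q, T c = b c + T (c + 1)) (hTq : T q = 0)
    (R : Finset ℕ) (hR : R.Nonempty) :
    ∃ Q ⊆ R, Q.Nonempty ∧ u (T 0 + 4) * R.card ≤ Q.card ∧
      ((∃ c < q, Good f q c H Q (b c) (T (c + 1) + q + 2) (2 * T c + q + 3)) ∨
        ∃ v, ∀ x ∈ Q, x / H = v) := by
  classical
  by_contra hcon
  have hRc : (0 : ℝ) < R.card := by exact_mod_cast hR.card_pos
  have hch : ∀ (Q : Finset ℕ) (c : ℕ), ∃ Z : Finset ℕ,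
      ¬ Good f q c H Q (b c) (T (c + 1) + q + 2) (2 * T c + q + 3) →
      Z ⊆ Q ∧ u (b c) * Q.card ≤ Z.card ∧
        (((Q ×ˢ Q).filter (fun z => Rec f q c H Q Z (u (T (c + 1) + q + 2) * Z.card / Q.card)
          (z.1 / H) (z.2 / H))).card : ℝ) < u (2 * T c + q + 3) * (Q.card : ℝ) ^ 2 := by
    intro Q c
    by_cases hg : Good f q c H Q (b c) (T (c + 1) + q + 2) (2 * T c + q + 3)
    · exact ⟨∅, fun h => absurd hg h⟩
    · unfold Good at hg
      push Not at hg
      obtain ⟨Z, h1, h2, h3⟩ := hg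
      exact ⟨Z, fun _ => ⟨h1, h2, h3⟩⟩
  choose nx hnx using hch
  let Qs : ℕ → Finset ℕ := fun c => Nat.rec R (fun c Q => nx Q c) c
  have Q0 : Qs 0 = R := rfl
  have QS : ∀ c, Qs (c + 1) = nx (Qs c) c := fun c => rfl
  have hne : ∀ (Q : Finset ℕ) (n : ℕ), u n * R.card ≤ Q.card → Q.Nonempty := fun Q n h => by
    have : (0 : ℝ) < Q.card := lt_of_lt_of_le (mul_pos (u_pos n) hRc) h
    exact Finset.card_pos.1 (by exact_mod_cast this)
  have hng : ∀ c < q, Qs c ⊆ R → u (T 0) * R.card ≤ u (T c) * (Qs c).card →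
      ¬ Good f q c H (Qs c) (b c) (T (c + 1) + q + 2) (2 * T c + q + 3) := by
    intro c hc h1 h2 hg
    have h3 : u (T 0 + 4) * R.card ≤ (Qs c).card := by
      calc u (T 0 + 4) * R.card ≤ u (T 0) * R.card := by gcongr; exact u_anti (by omega)
        _ ≤ u (T c) * (Qs c).card := h2
        _ ≤ 1 * (Qs c).card := by gcongr; exact u_le_one _
        _ = _ := one_mul _
    exact hcon ⟨Qs c, h1, hne _ _ h3, h3, Or.inl ⟨c, hc, hg⟩⟩
  have hinv : ∀ c ≤ q, Qs c ⊆ R ∧ u (T 0) * R.card ≤ u (T c) * (Qs c).card := by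
    intro c
    induction c with
    | zero => intro _; exact ⟨Subset.rfl, le_rfl⟩
    | succ c ih =>
      intro hc
      obtain ⟨i1, i2⟩ := ih (by omega)
      obtain ⟨k1, k2, _⟩ := hnx (Qs c) c (hng c (by omega) i1 i2)
      refine ⟨k1.trans i1, i2.trans ?_⟩
      rw [hT c (by omega), u_add, QS, mul_comm (u (b c)), mul_assoc]
      exact mul_le_mul_of_nonneg_left k2 (u_pos _).le
  have hstep : ∀ c < q, Qs (c + 1) ⊆ Qs c ∧ u (b c) * (Qs c).card ≤ (Qs (c + 1)).card ∧
      ((((Qs c) ×ˢ (Qs c)).filter (fun z => Rec f q c H (Qs c) (Qs (c + 1))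
        (u (T (c + 1) + q + 2) * (Qs (c + 1)).card / (Qs c).card)
          (z.1 / H) (z.2 / H))).card : ℝ) < u (2 * T c + q + 3) * ((Qs c).card : ℝ) ^ 2 :=
    fun c hc => hnx (Qs c) c (hng c hc (hinv c hc.le).1 (hinv c hc.le).2)
  have hchain : ∀ n c, c + n = q → Qs q ⊆ Qs c ∧ u (T c) * (Qs c).card ≤ (Qs q).card := by
    intro n
    induction n with
    | zero =>
      intro c hc
      obtain rfl : c = q := by omega
      exact ⟨Subset.rfl, by rw [hTq, u_zero, one_mul]⟩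
    | succ n ih =>
      intro c hc
      obtain ⟨i1, i2⟩ := ih (c + 1) (by omega)
      obtain ⟨k1, k2, _⟩ := hstep c (by omega)
      refine ⟨i1.trans k1, le_trans ?_ i2⟩
      rw [hT c (by omega), u_add, mul_comm (u (b c)), mul_assoc]
      exact mul_le_mul_of_nonneg_left k2 (u_pos _).le
  have hch : ∀ c ≤ q, Qs q ⊆ Qs c ∧ u (T c) * (Qs c).card ≤ (Qs q).card :=
    fun c hc => hchain (q - c) c (by omega)
  set Z := Qs q with hZ
  have hZR : u (T 0) * R.card ≤ Z.card := (hch 0 (Nat.zero_le _)).2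
  have hZc : (0 : ℝ) < Z.card := lt_of_lt_of_le (mul_pos (u_pos _) hRc) hZR
  have hlight : ∀ v, ((sl H Z v).card : ℝ) ≤ Z.card / 16 := by
    intro v
    by_contra hlt
    push Not at hlt
    have h3 : u (T 0 + 4) * R.card ≤ (sl H Z v).card := by
      rw [u_add]
      have : u 4 = 1 / 16 := by norm_num [u]
      rw [this]
      linarith
    exact hcon ⟨sl H Z v, (Finset.filter_subset _ _).trans (hch 0 (Nat.zero_le _)).1,
      hne _ _ h3, h3, Or.inr ⟨v, fun x hx => (Finset.mem_filter.1 hx).2⟩⟩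
  let η : ℕ → ℝ := fun c => u (T (c + 1) + q + 2) * (Qs (c + 1)).card / (Qs c).card
  have hQpos : ∀ c ≤ q, (0 : ℝ) < (Qs c).card := fun c hc => by
    have : (Z.card : ℝ) ≤ (Qs c).card := by exact_mod_cast Finset.card_le_card (hch c hc).1
    linarith
  let Bd : ℕ → Finset ℕ := fun c =>
    Z.filter (fun x => ((sl H Z (x / H)).card : ℝ) < η c * (sl H (Qs c) (x / H)).card)
  have hBd : ∀ c ∈ range q, ((Bd c).card : ℝ) ≤ u q * (Z.card / 4) := by
    intro c hc
    have hc' : c < q := by simpa using hc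
    have h1 := thin_le H (Qs c) Z (η c) (div_nonneg (mul_nonneg (u_pos _).le (by positivity))
      (by positivity))
    have h2 : η c * (Qs c).card = u q * (u (T (c + 1)) * (Qs (c + 1)).card / 4) := by
      have := hQpos c hc'.le
      have e : u 2 = 1 / 4 := by norm_num [u]
      simp only [η]
      rw [u_add, u_add, e]
      field_simp
    refine h1.trans ?_
    rw [h2]
    have := (hch (c + 1) hc').2
    have hu := u_pos q
    gcongr
  set G := Z \ (range q).biUnion Bd with hG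
  have hGc : 3 / 4 * (Z.card : ℝ) ≤ G.card := by
    have h1 : Z.card ≤ G.card + ((range q).biUnion Bd).card := by
      have := Finset.le_card_sdiff ((range q).biUnion Bd) Z
      rw [hG]; omega
    have h2 : (((range q).biUnion Bd).card : ℝ) ≤ ∑ c ∈ range q, ((Bd c).card : ℝ) := by
      exact_mod_cast Finset.card_biUnion_le
    have h3 := Finset.sum_le_sum hBd
    rw [Finset.sum_const, card_range, nsmul_eq_mul, ← mul_assoc] at h3
    have h4 : (q : ℝ) * u q * (Z.card / 4) ≤ 1 * (Z.card / 4) := by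
      gcongr; exact mul_u_le_one q
    have h5 : (Z.card : ℝ) ≤ G.card + ((range q).biUnion Bd).card := by exact_mod_cast h1
    linarith
  have hGZ : G ⊆ Z := Finset.sdiff_subset
  have hfar := far_pairs H G Z.card hGc (fun v => le_trans (by
    exact_mod_cast Finset.card_le_card (Finset.filter_subset_filter _ hGZ)) (hlight v))
  let Rc : ℕ → Finset (ℕ × ℕ) := fun c => ((Qs c) ×ˢ (Qs c)).filter
    (fun z => Rec f q c H (Qs c) (Qs (c + 1)) (η c) (z.1 / H) (z.2 / H))
  have hsub : (G ×ˢ G).filter (fun p => p.1 / H + 2 ≤ p.2 / H) ⊆ (range q).biUnion Rc := by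
    intro p hp
    obtain ⟨hp1, hp2⟩ := Finset.mem_filter.1 hp
    obtain ⟨hx, hy⟩ := Finset.mem_product.1 hp1
    obtain ⟨c, hc, hd⟩ := majority q hq f hf (sl H Z (p.1 / H)) (sl H Z (p.2 / H))
    have hgood : ∀ x ∈ G, η c * (sl H (Qs c) (x / H)).card ≤ (sl H Z (x / H)).card := by
      intro x hx
      by_contra hlt
      push Not at hlt
      exact (Finset.mem_sdiff.1 hx).2 (Finset.mem_biUnion.2 ⟨c, by simpa using hc,
        Finset.mem_filter.2 ⟨hGZ hx, hlt⟩⟩)
    have hZs := (hch c hc.le).1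
    have hZs' := (hch (c + 1) hc).1
    refine Finset.mem_biUnion.2 ⟨c, by simpa using hc, Finset.mem_filter.2
      ⟨Finset.mem_product.2 ⟨hZs (hGZ hx), hZs (hGZ hy)⟩, hp2, _, _,
        Finset.filter_subset_filter _ hZs', Finset.filter_subset_filter _ hZs',
        ⟨p.1, Finset.mem_filter.2 ⟨hGZ hx, rfl⟩⟩, ⟨p.2, Finset.mem_filter.2 ⟨hGZ hy, rfl⟩⟩,
        hgood _ hx, hgood _ hy, hd⟩⟩
  have hRc' : ∀ c ∈ range q, ((Rc c).card : ℝ) ≤ u q * ((Z.card : ℝ) ^ 2 / 8) := by
    intro c hc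
    have hc' : c < q := by simpa using hc
    refine (hstep c hc').2.2.le.trans ?_
    have e : u 3 = 1 / 8 := by norm_num [u]
    have h1 := (hch c hc'.le).2
    have h2 : (u (T c) * (Qs c).card) ^ 2 ≤ (Z.card : ℝ) ^ 2 :=
      pow_le_pow_left₀ (mul_nonneg (u_pos _).le (by positivity)) h1 2
    rw [u_add, u_add, two_mul, u_add, e]
    have hu := u_pos q
    calc _ = u q * ((u (T c) * (Qs c).card) ^ 2 / 8) := by ring
      _ ≤ _ := by gcongr
  have h1 : ((((G ×ˢ G).filter (fun p => p.1 / H + 2 ≤ p.2 / H)).card : ℕ) : ℝ) ≤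
      ∑ c ∈ range q, ((Rc c).card : ℝ) := by
    exact_mod_cast (Finset.card_le_card hsub).trans Finset.card_biUnion_le
  have h3 := Finset.sum_le_sum hRc'
  rw [Finset.sum_const, card_range, nsmul_eq_mul, ← mul_assoc] at h3
  have h4 : (q : ℝ) * u q * ((Z.card : ℝ) ^ 2 / 8) ≤ 1 * ((Z.card : ℝ) ^ 2 / 8) := by
    gcongr; exact mul_u_le_one q
  nlinarith [sq_pos_of_pos hZc]

end Pool.Agent.P.MP_4cb405_co.Dp
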