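import Mathlib
import Pool.Agent.P.MP_4cb405_co.Dp.C

set_option autoImplicit false

namespace Pool.Agent.P.MP_4cb405_co.Dp

open Finset

/-- A monochromatic increasing tuple on `[i, j]` whose `k`-th gap has scale `M ^ σ k`. -/
structure Cp (f : ℕ → ℕ → ℕ) (c M : ℕ) (σ : ℕ → ℕ) (i j : ℕ) (a : ℕ → ℕ) : Prop where
  col : ∀ k l, i ≤ k → k < l → l ≤ j → a k < a l ∧ f (a k) (a l) = c
  win : ∀ k, i ≤ k → k < j → M ^ σ k ≤ a (k + 1) - a k ∧ a (k + 1) - a k < M ^ (σ k + 1)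

theorem merge {f : ℕ → ℕ → ℕ} {c M : ℕ} (hM : 0 < M) {σ : ℕ → ℕ} {i m j v v' o : ℕ}
    {A B : ℕ → ℕ} (him : i ≤ m) (hmj : m < j) (hA : Cp f c M σ i m A)
    (hB : Cp f c M σ (m + 1) j B) (hv : v + 2 ≤ v')
    (gA : ∀ l, i ≤ l → l ≤ m → A l / M ^ σ m = v ∧ A l / M ^ (σ m + 1) = o)
    (gB : ∀ l, m + 1 ≤ l → l ≤ j → B l / M ^ σ m = v' ∧ B l / M ^ (σ m + 1) = o)
    (hcross : ∀ k l, i ≤ k → k ≤ m → m + 1 ≤ l → l ≤ j → f (A k) (B l) = c) :
    Cp f c M σ i j (fun k => if k ≤ m then A k else B k) := by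
  have hH : 0 < M ^ σ m := by positivity
  have hH' : 0 < M ^ (σ m + 1) := by positivity
  have key : ∀ k l, i ≤ k → k ≤ m → m + 1 ≤ l → l ≤ j →
      A k + M ^ σ m ≤ B l ∧ B l < A k + M ^ (σ m + 1) := by
    intro k l k1 k2 l1 l2
    obtain ⟨a1, a2⟩ := gA k k1 k2
    obtain ⟨b1, b2⟩ := gB l l1 l2
    generalize M ^ σ m = H at *
    generalize M ^ (σ m + 1) = H' at *
    have c1 := Nat.div_add_mod (A k) H
    have c2 := Nat.mod_lt (A k) hH
    have c3 := Nat.div_add_mod (B l) H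
    have c4 := Nat.div_add_mod (A k) H'
    have c5 := Nat.div_add_mod (B l) H'
    have c6 := Nat.mod_lt (B l) hH'
    rw [a1] at c1
    rw [b1] at c3
    rw [a2] at c4
    rw [b2] at c5
    have c7 : H * (v + 2) ≤ H * v' := Nat.mul_le_mul_left _ hv
    rw [Nat.mul_add] at c7
    omega
  constructor
  · intro k l h1 h2 h3
    by_cases hl : l ≤ m
    · simp only [if_pos hl, if_pos (show k ≤ m by omega)]
      exact hA.col k l h1 h2 hl
    by_cases hk : k ≤ m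
    · simp only [if_pos hk, if_neg hl]
      have := key k l h1 hk (by omega) h3
      exact ⟨by omega, hcross k l h1 hk (by omega) h3⟩
    · simp only [if_neg hk, if_neg hl]
      exact hB.col k l (by omega) h2 h3
  · intro k h1 h2
    rcases lt_trichotomy k m with hk | hk | hk
    · simp only [if_pos hk.le, if_pos (show k + 1 ≤ m from hk)]
      exact hA.win k h1 hk
    · subst hk
      simp only [if_pos le_rfl, if_neg (show ¬ k + 1 ≤ k by omega)]
      have := key k (k + 1) h1 le_rfl le_rfl h2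
      omega
    · simp only [if_neg (show ¬ k ≤ m by omega), if_neg (show ¬ k + 1 ≤ m by omega)]
      exact hB.win k hk h2

theorem u_two_le {x y x' y' : ℕ} (h : x' + y ≤ x + y') : u x * 2 ^ y ≤ u x' * 2 ^ y' := by
  have e : ∀ a b c : ℕ, u a * 2 ^ b = u (a + c) * 2 ^ (b + c) := fun a b c => by
    rw [u_add, pow_add]
    calc u a * 2 ^ b = u a * 2 ^ b * (u c * 2 ^ c) := by rw [u_mul_two_pow, mul_one]
      _ = _ := by ring
  rw [e x y y', e x' y' y, add_comm y' y]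
  exact mul_le_mul_of_nonneg_right (u_anti h) (by positivity)

/-- Density budget of a type with `s` points and depth `e`. -/
def cost (q R γ φ s e : ℕ) : ℕ := e * (γ + 1) + Nat.log 2 s * (q * R) + s * φ

/-- The density threshold. -/
noncomputable def tau (q R b γ φ s e : ℕ) : ℝ := u b * 2 ^ cost q R γ φ s e

theorem tau_pos (q R b γ φ s e : ℕ) : 0 < tau q R b γ φ s e :=
  mul_pos (u_pos _) (by positivity)

theorem u_le_tau (q R b γ φ s e : ℕ) : u b ≤ tau q R b γ φ s e :=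
  le_mul_of_one_le_right (u_pos _).le (one_le_pow₀ (by norm_num))

theorem num1 (q R b γ φ s₁ s₂ e : ℕ) (h1 : 1 ≤ s₁) (h2 : s₁ ≤ s₂) :
    2 * tau q R b γ φ s₁ e ≤ u γ * tau q R b γ φ (s₁ + s₂) (e + 1) * u q ^ R := by
  have hl : Nat.log 2 s₁ + 1 ≤ Nat.log 2 (s₁ + s₂) := by
    rw [← Nat.log_mul_base (by norm_num) (by omega)]
    exact Nat.log_mono_right (by omega)
  have e1 : 2 * tau q R b γ φ s₁ e = u b * 2 ^ (cost q R γ φ s₁ e + 1) := by
    unfold tau; rw [pow_succ]; ring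
  have e2 : u γ * tau q R b γ φ (s₁ + s₂) (e + 1) * u q ^ R =
      u (γ + b + q * R) * 2 ^ cost q R γ φ (s₁ + s₂) (e + 1) := by
    unfold tau; rw [u_pow, u_add, u_add]; ring
  rw [e1, e2]
  apply u_two_le
  unfold cost
  have := Nat.mul_le_mul_right (q * R) hl
  nlinarith [Nat.zero_le (s₂ * φ)]

theorem num2 (q R b γ φ F s₁ e : ℕ) (h1 : 1 ≤ s₁) (hF : F ≤ φ * R) (hb : b + 1 ≤ F) :
    2 * u (s₁ * φ) ^ R ≤ u ((s₁ - 1) * F) * tau q R b γ φ s₁ e := by
  refine le_trans ?_ (mul_le_mul_of_nonneg_left (u_le_tau q R b γ φ s₁ e) (u_pos _).le)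
  rw [u_pow, ← u_add]
  obtain ⟨n, rfl⟩ : ∃ n, s₁ = n + 1 := ⟨s₁ - 1, by omega⟩
  have := u_two_le (x := (n + 1) * φ * R) (y := 1) (x' := (n + 1 - 1) * F + b) (y' := 0) (by
    have := Nat.mul_le_mul_left (n + 1) hF
    simp only [Nat.add_sub_cancel]
    nlinarith)
  linarith

theorem num3 (q R b γ φ s₁ s₂ e : ℕ) :
    2 * tau q R b γ φ s₂ e ≤ u γ * tau q R b γ φ (s₁ + s₂) (e + 1) * u (s₁ * φ) := by
  have hl : Nat.log 2 s₂ ≤ Nat.log 2 (s₁ + s₂) := Nat.log_mono_right (by omega)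
  have e1 : 2 * tau q R b γ φ s₂ e = u b * 2 ^ (cost q R γ φ s₂ e + 1) := by
    unfold tau; rw [pow_succ]; ring
  have e2 : u γ * tau q R b γ φ (s₁ + s₂) (e + 1) * u (s₁ * φ) =
      u (γ + b + s₁ * φ) * 2 ^ cost q R γ φ (s₁ + s₂) (e + 1) := by
    unfold tau; rw [u_add, u_add]; ring
  rw [e1, e2]
  apply u_two_le
  unfold cost
  have := Nat.mul_le_mul_right (q * R) hl
  nlinarith

theorem num4 (b k F s₁ s₂ : ℕ) (t₁ t₂ : ℝ) (h1 : 1 ≤ s₁) (h2 : 1 ≤ s₂) (hF : k + 2 * b + 1 ≤ F)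
    (g1 : u b ≤ t₁) (g2 : u b ≤ t₂) :
    u ((s₁ + s₂ - 1) * F) ≤ u ((s₂ - 1) * F) * t₂ * (u ((s₁ - 1) * F) * t₁ / 2) * u k := by
  obtain ⟨n, rfl⟩ : ∃ n, s₁ = n + 1 := ⟨s₁ - 1, by omega⟩
  obtain ⟨m, rfl⟩ : ∃ m, s₂ = m + 1 := ⟨s₂ - 1, by omega⟩
  have e : n + 1 + (m + 1) - 1 = n + m + 1 := by omega
  rw [e]
  simp only [Nat.add_sub_cancel]
  have p1 := u_pos (m * F)
  have p2 := u_pos (n * F)
  have p3 := u_pos b
  have p4 := u_pos k
  calc u ((n + m + 1) * F) ≤ u (m * F + b + (n * F + b + 1) + k) := u_anti (by nlinarith)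
    _ = u (m * F) * u b * (u (n * F) * u b / 2) * u k := by
        simp only [u_add, u_one]; ring
    _ ≤ _ := by
        have : 0 ≤ t₂ := p3.le.trans g2
        gcongr

theorem sum_filter_swap (X Y : Finset ℕ) (E : ℕ → ℕ → Prop) [∀ x y, Decidable (E x y)] :
    ∑ x ∈ X, ((Y.filter (fun y => E x y)).card : ℝ) =
      ∑ y ∈ Y, ((X.filter (fun x => E x y)).card : ℝ) := by
  simp only [Finset.card_filter, Nat.cast_sum]
  exact Finset.sum_comm

/-- The splitting step at a slot where the colour `c` is good. -/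
theorem split {f : ℕ → ℕ → ℕ} {q c M R b γ φ kk F : ℕ} (hM : 0 < M) (hR : 0 < R)
    (hF : F ≤ φ * R) (hF' : kk + 2 * b + 1 ≤ F) {σ : ℕ → ℕ} {i m j e o : ℕ} (him : i ≤ m)
    (hmj : m < j) {Q S : Finset ℕ} (hQ : Q.Nonempty) (hSQ : S ⊆ Q)
    (hQo : ∀ x ∈ Q, x / M ^ (σ m + 1) = o) (hgood : Good f q c (M ^ σ m) Q b γ kk)
    (hL : ∀ v, (sl (M ^ σ m) Q v).Nonempty → Abs (Cp f c M σ i m) i m (sl (M ^ σ m) S v)
      (sl (M ^ σ m) Q v).card (u ((m + 1 - i - 1) * F)) (tau q R b γ φ (m + 1 - i) e))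
    (hRt : ∀ v, (sl (M ^ σ m) Q v).Nonempty → Abs (Cp f c M σ (m + 1) j) (m + 1) j
      (sl (M ^ σ m) S v) (sl (M ^ σ m) Q v).card (u ((j + 1 - (m + 1) - 1) * F))
      (tau q R b γ φ (j + 1 - (m + 1)) e)) :
    Abs (Cp f c M σ i j) i j S Q.card (u ((j + 1 - i - 1) * F))
      (tau q R b γ φ (j + 1 - i) (e + 1)) := by
  classical
  intro ι K ω Z h0 hZ hpos
  set H := M ^ σ m with hH
  set sL := m + 1 - i with hsL
  set sR := j + 1 - (m + 1) with hsR
  have hs : j + 1 - i = sL + sR := by omega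
  have hsL1 : 1 ≤ sL := by omega
  have hsR1 : 1 ≤ sR := by omega
  rw [hs] at hpos ⊢
  set τ := tau q R b γ φ (sL + sR) (e + 1) with hτ
  have hτ0 : 0 < τ := tau_pos _ _ _ _ _ _ _
  have hQc : (0 : ℝ) < Q.card := by exact_mod_cast hQ.card_pos
  set K1 := K.filter (fun k => τ < ((Z k).card : ℝ) / Q.card) with hK1
  have hΩ : ∑ k ∈ K, ω k * max (((Z k).card : ℝ) / Q.card - τ) 0 ≤ ∑ k ∈ K1, ω k := by
    rw [hK1, Finset.sum_filter]
    refine Finset.sum_le_sum (fun k hk => ?_)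
    split_ifs with h
    · refine mul_le_of_le_one_right (h0 k) (max_le ?_ zero_le_one)
      have : ((Z k).card : ℝ) / Q.card ≤ 1 := by
        rw [div_le_one hQc]
        exact_mod_cast Finset.card_le_card ((hZ k hk).trans hSQ)
      linarith
    · rw [max_eq_right (by linarith [not_lt.1 h]), mul_zero]
  have hΩ0 : 0 < ∑ k ∈ K1, ω k := lt_of_lt_of_le hpos hΩ
  let rc : ι → ℕ × ℕ → Prop := fun k z =>
    Rec f q c H Q (Z k) (u γ * (Z k).card / Q.card) (z.1 / H) (z.2 / H)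
  have havg : ∑ _z ∈ Q ×ˢ Q, u kk * ∑ k ∈ K1, ω k ≤
      ∑ z ∈ Q ×ˢ Q, ∑ k ∈ K1, if rc k z then ω k else 0 := by
    rw [Finset.sum_comm (s := Q ×ˢ Q), Finset.sum_const, nsmul_eq_mul, Finset.card_product,
      ← mul_assoc, Finset.mul_sum]
    refine Finset.sum_le_sum (fun k hk => ?_)
    obtain ⟨hk1, hk2⟩ := Finset.mem_filter.1 hk
    rw [← Finset.sum_filter, Finset.sum_const, nsmul_eq_mul]
    refine mul_le_mul_of_nonneg_right ?_ (h0 k)
    have := hgood (Z k) ((hZ k hk1).trans hSQ) (by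
      have h1 := (u_le_tau q R b γ φ (sL + sR) (e + 1)).trans hk2.le
      rwa [le_div_iff₀ hQc] at h1)
    push_cast
    calc (Q.card : ℝ) * Q.card * u kk = u kk * (Q.card : ℝ) ^ 2 := by ring
      _ ≤ _ := by convert this using 3
  obtain ⟨z, hz, hz2⟩ := Finset.exists_le_of_sum_le (hQ.product hQ) havg
  rw [← Finset.sum_filter] at hz2
  set K2 := K1.filter (fun k => rc k z) with hK2
  set v := z.1 / H
  set v' := z.2 / H
  have hK2pos : 0 < ∑ k ∈ K2, ω k := lt_of_lt_of_le (mul_pos (u_pos _) hΩ0) hz2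
  have hch : ∀ k, ∃ X Y : Finset ℕ, k ∈ K2 → v + 2 ≤ v' ∧ X ⊆ sl H (Z k) v ∧
      Y ⊆ sl H (Z k) v' ∧ X.Nonempty ∧ Y.Nonempty ∧
      u γ * τ * (sl H Q v).card ≤ X.card ∧ u γ * τ * (sl H Q v').card ≤ Y.card ∧
      u q * X.card * Y.card ≤ ∑ x ∈ X, ((Y.filter (fun y => f x y = c)).card : ℝ) := by
    intro k
    by_cases hk : k ∈ K2
    · obtain ⟨hk1, hv, X, Y, a1, a2, a3, a4, a5, a6, a7⟩ := Finset.mem_filter.1 hk
      have hle : u γ * τ ≤ u γ * (Z k).card / Q.card := by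
        rw [mul_div_assoc]
        exact mul_le_mul_of_nonneg_left (Finset.mem_filter.1 hk1).2.le (u_pos _).le
      exact ⟨X, Y, fun _ => ⟨hv, a1, a2, a3, a4,
        le_trans (mul_le_mul_of_nonneg_right hle (by positivity)) a5,
        le_trans (mul_le_mul_of_nonneg_right hle (by positivity)) a6, a7⟩⟩
    · exact ⟨∅, ∅, fun h => absurd h hk⟩
  choose X Y hXY using hch
  have hK2K : ∀ k ∈ K2, k ∈ K := fun k hk =>
    (Finset.mem_filter.1 (Finset.mem_filter.1 hk).1).1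
  have hv1 : (sl H Q v).Nonempty :=
    ⟨z.1, Finset.mem_filter.2 ⟨(Finset.mem_product.1 hz).1, rfl⟩⟩
  have hv2 : (sl H Q v').Nonempty :=
    ⟨z.2, Finset.mem_filter.2 ⟨(Finset.mem_product.1 hz).2, rfl⟩⟩
  have hn1 : (0 : ℝ) < (sl H Q v).card := by exact_mod_cast hv1.card_pos
  have hn2 : (0 : ℝ) < (sl H Q v').card := by exact_mod_cast hv2.card_pos
  have hXS : ∀ k ∈ K2, X k ⊆ sl H S v := fun k hk =>
    (hXY k hk).2.1.trans (Finset.filter_subset_filter _ (hZ k (hK2K k hk)))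
  have hYS : ∀ k ∈ K2, Y k ⊆ sl H S v' := fun k hk =>
    (hXY k hk).2.2.1.trans (Finset.filter_subset_filter _ (hZ k (hK2K k hk)))
  have main : ∃ A B, Cp f c M σ i m A ∧ Cp f c M σ (m + 1) j B ∧
      u ((sL + sR - 1) * F) * ∑ k ∈ K1, ω k ≤ ∑ k ∈ K2,
        if In A i m (X k) ∧ In B (m + 1) j (Y k) ∧
          ∀ l l', i ≤ l → l ≤ m → m + 1 ≤ l' → l' ≤ j → f (A l) (B l') = c then ω k else 0 := by
    rcases le_total sL sR with hle | hle
    · obtain ⟨A, B, hA, hB, hw⟩ := two_step (hL v hv1) (hRt v' hv2) hn1 (u_pos _)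
        (tau_pos _ _ _ _ _ _ _) hn2 (u_pos _) (tau_pos _ _ _ _ _ _ _) (fun x y => f x y = c)
        ι K2 ω X Y (u γ * τ) (u q) (u (sL * φ)) R hR (u_pos _).le (u_pos _).le h0 hXS hYS
        (fun k hk => (hXY k hk).2.2.2.1) (fun k hk => (hXY k hk).2.2.2.2.1)
        (fun k hk => (hXY k hk).2.2.2.2.2.1) (fun k hk => (hXY k hk).2.2.2.2.2.2.1)
        (fun k hk => by convert (hXY k hk).2.2.2.2.2.2.2 using 5)
        (num1 q R b γ φ sL sR e hsL1 hle) (num2 q R b γ φ F sL e hsL1 hF (by omega))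
        (num3 q R b γ φ sL sR e) hK2pos
      refine ⟨A, B, hA, hB, le_trans ?_ (by convert hw using 3)⟩
      have n4 := num4 b kk F sL sR _ _ hsL1 hsR1 hF' (u_le_tau q R b γ φ sL e)
        (u_le_tau q R b γ φ sR e)
      refine (mul_le_mul_of_nonneg_right n4 hΩ0.le).trans ?_
      rw [mul_assoc]
      refine mul_le_mul_of_nonneg_left hz2 ?_
      have := u_pos ((sL - 1) * F)
      have := u_pos ((sR - 1) * F)
      have := tau_pos q R b γ φ sL e
      have := tau_pos q R b γ φ sR e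
      positivity
    · have hτ' : τ = tau q R b γ φ (sR + sL) (e + 1) := by rw [add_comm]
      obtain ⟨B, A, hB, hA, hw⟩ := two_step (hRt v' hv2) (hL v hv1) hn2 (u_pos _)
        (tau_pos _ _ _ _ _ _ _) hn1 (u_pos _) (tau_pos _ _ _ _ _ _ _) (fun y x => f x y = c)
        ι K2 ω Y X (u γ * τ) (u q) (u (sR * φ)) R hR (u_pos _).le (u_pos _).le h0 hYS hXS
        (fun k hk => (hXY k hk).2.2.2.2.1) (fun k hk => (hXY k hk).2.2.2.1)
        (fun k hk => (hXY k hk).2.2.2.2.2.2.1) (fun k hk => (hXY k hk).2.2.2.2.2.1)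
        (fun k hk => by
          have h1 := (hXY k hk).2.2.2.2.2.2.2
          rw [sum_filter_swap (X k) (Y k) (fun x y => f x y = c)] at h1
          rw [mul_right_comm]
          convert h1 using 5)
        (hτ' ▸ num1 q R b γ φ sR sL e hsR1 hle) (num2 q R b γ φ F sR e hsR1 hF (by omega))
        (hτ' ▸ num3 q R b γ φ sR sL e) hK2pos
      refine ⟨A, B, hA, hB, le_trans ?_ (hw.trans (Finset.sum_le_sum (fun k _ => ?_)))⟩
      · have n4 := num4 b kk F sR sL _ _ hsR1 hsL1 hF' (u_le_tau q R b γ φ sR e)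
          (u_le_tau q R b γ φ sL e)
        rw [add_comm sR sL] at n4
        refine (mul_le_mul_of_nonneg_right n4 hΩ0.le).trans ?_
        rw [mul_assoc]
        refine mul_le_mul_of_nonneg_left hz2 ?_
        have := u_pos ((sL - 1) * F)
        have := u_pos ((sR - 1) * F)
        have := tau_pos q R b γ φ sL e
        have := tau_pos q R b γ φ sR e
        positivity
      · split_ifs with g1 g2 g2
        · exact le_rfl
        · exact absurd ⟨g1.2.1, g1.1, fun l l' a1 a2 a3 a4 => g1.2.2 l' l a3 a4 a1 a2⟩ g2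
        · exact h0 k
        · exact le_rfl
  obtain ⟨A, B, hA, hB, hw⟩ := main
  obtain ⟨k0, hk0, hk0'⟩ : ∃ k ∈ K2, In A i m (X k) ∧ In B (m + 1) j (Y k) ∧
      ∀ l l', i ≤ l → l ≤ m → m + 1 ≤ l' → l' ≤ j → f (A l) (B l') = c := by
    by_contra hno
    have := lt_of_lt_of_le (mul_pos (u_pos _) hΩ0) hw
    rw [Finset.sum_eq_zero (fun k hk => if_neg (fun h => hno ⟨k, hk, h⟩))] at this
    exact lt_irrefl _ this
  refine ⟨fun k => if k ≤ m then A k else B k, merge hM him hmj hA hB (hXY k0 hk0).1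
    (o := o) (fun l l1 l2 => ?_) (fun l l1 l2 => ?_) hk0'.2.2, ?_⟩
  · have := Finset.mem_filter.1 (hXS k0 hk0 (hk0'.1 l l1 l2))
    exact ⟨this.2, hQo _ (hSQ this.1)⟩
  · have := Finset.mem_filter.1 (hYS k0 hk0 (hk0'.2.1 l l1 l2))
    exact ⟨this.2, hQo _ (hSQ this.1)⟩
  · refine (mul_le_mul_of_nonneg_left hΩ (u_pos _).le).trans (hw.trans ?_)
    refine le_trans (Finset.sum_le_sum (fun k hk => ?_))
      (Finset.sum_le_sum_of_subset_of_nonneg (fun k hk => hK2K k hk) (fun k _ _ => ?_))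
    · split_ifs with g1 g2 g2
      · exact le_rfl
      · refine absurd (fun l l1 l2 => ?_) g2
        by_cases hl : l ≤ m
        · simp only [if_pos hl]
          exact (Finset.mem_filter.1 ((hXY k hk).2.1 (g1.1 l l1 hl))).1
        · simp only [if_neg hl]
          exact (Finset.mem_filter.1 ((hXY k hk).2.2.1 (g1.2.1 l (by omega) l2))).1
      · exact h0 k
      · exact le_rfl
    · split_ifs
      · exact h0 k
      · exact le_rfl

end Pool.Agent.P.MP_4cb405_co.Dp
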