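import Mathlib
import Pool.Agent.P.MP_4cb405_co.Dp.D

set_option autoImplicit false

namespace Pool.Agent.P.MP_4cb405_co.Dp

open Finset

/-- Greedy partition into few parts with a property. -/
theorem parts (G : Finset ℕ → Prop) (ε : ℝ) (hε : 0 < ε)
    (hG : ∀ R : Finset ℕ, R.Nonempty → ∃ Q ⊆ R, Q.Nonempty ∧ ε * R.card ≤ Q.card ∧ G Q)
    (A : Finset ℕ) : ∃ (pt : ℕ → ℕ) (n : ℕ), (n : ℝ) ≤ Real.log A.card / ε + 1 ∧
      (∀ x ∈ A, pt x < n) ∧ ∀ r, (A.filter (fun x => pt x = r)).Nonempty →
        G (A.filter (fun x => pt x = r)) := by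
  classical
  induction A using Finset.strongInduction with
  | H A ih =>
    rcases A.eq_empty_or_nonempty with rfl | hA
    · exact ⟨fun _ => 0, 0, by simp, by simp, by simp⟩
    obtain ⟨Q, hQA, hQ, hc, hg⟩ := hG A hA
    have hss : A \ Q ⊂ A := Finset.sdiff_ssubset hQA hQ
    obtain ⟨pt, n, h1, h2, h3⟩ := ih _ hss
    have hAc : (1 : ℝ) ≤ A.card := by exact_mod_cast hA.card_pos
    have hn : ∃ n' : ℕ, (∀ x ∈ A \ Q, pt x < n') ∧ (n' : ℝ) ≤ Real.log A.card / ε := by
      rcases (A \ Q).eq_empty_or_nonempty with he | hne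
      · refine ⟨0, by simp [he], ?_⟩
        have := Real.log_nonneg hAc
        simp only [Nat.cast_zero]
        positivity
      · refine ⟨n, h2, h1.trans ?_⟩
        have e1 : (((A \ Q).card : ℕ) : ℝ) = A.card - Q.card := by
          rw [Finset.card_sdiff_of_subset hQA, Nat.cast_sub (Finset.card_le_card hQA)]
        have e2 : (0 : ℝ) < (A \ Q).card := by exact_mod_cast hne.card_pos
        have e3 := Real.log_le_sub_one_of_pos (div_pos e2 (lt_of_lt_of_le one_pos hAc))
        rw [Real.log_div e2.ne' (by linarith)] at e3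
        have e4 : (((A \ Q).card : ℕ) : ℝ) / A.card - 1 ≤ -ε := by
          rw [e1, sub_le_iff_le_add, div_le_iff₀ (by linarith)]
          linarith
        rw [div_add_one hε.ne']
        gcongr
        linarith
    obtain ⟨n', k1, k2⟩ := hn
    refine ⟨fun x => if x ∈ Q then n' else pt x, n' + 1, by push_cast; linarith, fun x hx => ?_,
      fun r hr => ?_⟩
    · by_cases h : x ∈ Q
      · simp [h]
      · simp only [if_neg h]
        exact (k1 x (Finset.mem_sdiff.2 ⟨hx, h⟩)).trans (Nat.lt_succ_self _)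
    · by_cases h : r = n'
      · have : A.filter (fun x => (if x ∈ Q then n' else pt x) = r) = Q := by
          ext x
          simp only [mem_filter]
          constructor
          · rintro ⟨a, b⟩
            by_contra hx
            rw [if_neg hx] at b
            have := k1 x (Finset.mem_sdiff.2 ⟨a, hx⟩)
            omega
          · intro hx
            exact ⟨hQA hx, by rw [if_pos hx, h]⟩
        rw [this]
        exact hg
      · have : A.filter (fun x => (if x ∈ Q then n' else pt x) = r) =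
            (A \ Q).filter (fun x => pt x = r) := by
          ext x
          simp only [mem_filter, mem_sdiff]
          by_cases hx : x ∈ Q
          · simp [hx, Ne.symm h]
          · simp [hx]
        rw [this] at hr ⊢
        exact h3 r hr

/-- The gap `m` is an ancestor of the gap `k`. -/
def Anc (σ : ℕ → ℕ) (m k : ℕ) : Prop :=
  ∀ p, ((m ≤ p ∧ p ≤ k) ∨ (k ≤ p ∧ p ≤ m)) → σ p ≤ σ m

open Classical in
/-- Every gap in `[i, j)` has at most `e` ancestors there. -/
def Hd (σ : ℕ → ℕ) (e i j : ℕ) : Prop :=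
  ∀ k, i ≤ k → k < j → ((Ico i j).filter (fun m => Anc σ m k)).card ≤ e

theorem Hd.sub {σ : ℕ → ℕ} {e i j i' j' m : ℕ} (h : Hd σ (e + 1) i j) (h1 : i ≤ m) (h2 : m < j)
    (hm : ∀ p, i ≤ p → p < j → σ p ≤ σ m) (hi : i ≤ i') (hj : j' ≤ j) (hn : m < i' ∨ j' ≤ m) :
    Hd σ e i' j' := by
  classical
  intro k k1 k2
  have := h k (by omega) (by omega)
  have hs : insert m ((Ico i' j').filter (fun m => Anc σ m k)) ⊆
      (Ico i j).filter (fun m => Anc σ m k) := by
    intro x hx
    rcases Finset.mem_insert.1 hx with rfl | hx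
    · exact Finset.mem_filter.2 ⟨Finset.mem_Ico.2 ⟨h1, h2⟩,
        fun p hp => hm p (by omega) (by omega)⟩
    · exact Finset.filter_subset_filter _ (Finset.Ico_subset_Ico hi hj) hx
  have hc := Finset.card_le_card hs
  rw [Finset.card_insert_of_notMem (by simp only [mem_filter, mem_Ico]; omega)] at hc
  omega

theorem Hd.pos {σ : ℕ → ℕ} {e i j : ℕ} (h : Hd σ e i j) (hij : i < j) : 0 < e := by
  classical
  refine lt_of_lt_of_le (Finset.card_pos.2 ⟨i, ?_⟩) (h i le_rfl hij)
  refine Finset.mem_filter.2 ⟨Finset.mem_Ico.2 ⟨le_rfl, hij⟩, fun p hp => ?_⟩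
  obtain rfl : p = i := by omega
  exact le_rfl

open Classical in
/-- All types scheduled on slots of one colour embed in the points with a given word. -/
def Emb (f : ℕ → ℕ → ℕ) (q M R : ℕ) (b γ φ F : ℕ → ℕ) (h : ℕ) (A : Finset ℕ)
    (w : ℕ → ℕ → ℕ) : Prop :=
  A.Nonempty → ∀ (lam σ : ℕ → ℕ) (c i j e : ℕ), c < q → i ≤ j →
    (∀ k, i ≤ k → k < j → σ k < h ∧ lam (σ k) = c) →
    (∀ k l, i ≤ k → k < j → i ≤ l → l < j → σ k = σ l → k = l) → Hd σ e i j →
    Abs (Cp f c M σ i j) i j (A.filter (fun x => ∀ p < h, w x p = lam p)) A.card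
      (u ((j + 1 - i - 1) * F c)) (tau q R (b c) (γ c) (φ c) (j + 1 - i) e)

/-- Weight of a word: a factor `M` for each dead slot. -/
def wt (q M h : ℕ) (l : ℕ → ℕ) : ℕ := ∏ p ∈ range h, if l p = q then M else 1

theorem struct {f : ℕ → ℕ → ℕ} {q M R P n0 : ℕ} {b γ φ F kk : ℕ → ℕ} {ε : ℝ} (hM : 0 < M)
    (hR : 0 < R) (hε : 0 < ε) (hF : ∀ c < q, F c ≤ φ c * R)
    (hF' : ∀ c < q, kk c + 2 * b c + 1 ≤ F c)
    (hcar : ∀ (H : ℕ) (S : Finset ℕ), S.Nonempty → ∃ Q ⊆ S, Q.Nonempty ∧ ε * S.card ≤ Q.card ∧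
      ((∃ c < q, Good f q c H Q (b c) (γ c) (kk c)) ∨ ∃ v, ∀ x ∈ Q, x / H = v))
    (hP : Real.log n0 / ε + 1 ≤ P) (h : ℕ) :
    ∀ (A : Finset ℕ) (o : ℕ), A.card ≤ n0 → (∀ x ∈ A, x / M ^ h = o) →
      ∃ w : ℕ → ℕ → ℕ, (∀ x p, w x p ≤ q) ∧ Emb f q M R b γ φ F h A w ∧
        ∑ x ∈ A, wt q M h (w x) ≤ (P * M) ^ h := by
  classical
  induction h with
  | zero =>
    intro A o _ hA
    refine ⟨fun _ _ => 0, fun _ _ => Nat.zero_le _, ?_, ?_⟩
    · intro hne lam σ c i j e _ hij hσ _ _
      obtain rfl : i = j := by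
        by_contra hn
        exact absurd (hσ i le_rfl (by omega)).1 (Nat.not_lt_zero _)
      have e0 : i + 1 - i - 1 = 0 := by omega
      rw [e0, zero_mul, u_zero]
      exact abs_leaf _ _ _ _ _ _ (tau_pos _ _ _ _ _ _ _).le hne (Finset.filter_subset _ _)
        (fun x => ⟨fun k l _ _ _ => by omega, fun k _ _ => by omega⟩)
    · simp only [wt, range_zero, prod_empty, pow_zero, ← Finset.card_eq_sum_ones]
      refine Finset.card_le_one.2 (fun x hx y hy => ?_)
      have h1 := hA x hx
      have h2 := hA y hy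
      simp only [pow_zero, Nat.div_one] at h1 h2
      rw [h1, h2]
  | succ h ih =>
    intro A o hAn hAo
    obtain ⟨pt, n, hn, hpt, hpart⟩ := parts _ ε hε (hcar (M ^ h)) A
    let Q : ℕ → Finset ℕ := fun r => A.filter (fun x => pt x = r)
    have hQA : ∀ r, Q r ⊆ A := fun r => Finset.filter_subset _ _
    have hlab : ∀ r, ∃ l ≤ q, (Q r).Nonempty → (l < q → Good f q l (M ^ h) (Q r) (b l) (γ l) (kk l)) ∧
        (l = q → ∃ v, ∀ x ∈ Q r, x / M ^ h = v) := by
      intro r
      by_cases hr : (Q r).Nonempty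
      · rcases hpart r hr with ⟨c, hc, hg⟩ | hv
        · exact ⟨c, hc.le, fun _ => ⟨fun _ => hg, fun e => by omega⟩⟩
        · exact ⟨q, le_rfl, fun _ => ⟨fun e => by omega, fun _ => hv⟩⟩
      · exact ⟨q, le_rfl, fun e => absurd e hr⟩
    choose lab hlq hlab using hlab
    have hch : ∀ r v, ∃ w : ℕ → ℕ → ℕ, (∀ x p, w x p ≤ q) ∧
        Emb f q M R b γ φ F h (sl (M ^ h) (Q r) v) w ∧
        ∑ x ∈ sl (M ^ h) (Q r) v, wt q M h (w x) ≤ (P * M) ^ h := fun r v =>
      ih _ v ((Finset.card_le_card ((Finset.filter_subset _ _).trans (hQA r))).trans hAn)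
        (fun x hx => (Finset.mem_filter.1 hx).2)
    choose W hWq hWe hWc using hch
    let w : ℕ → ℕ → ℕ := fun x p => if p = h then lab (pt x) else W (pt x) (x / M ^ h) x p
    refine ⟨w, fun x p => ?_, ?_, ?_⟩
    · simp only [w]
      split_ifs
      exacts [hlq _, hWq _ _ _ _]
    · intro hne lam σ c i j e hc hij hσ hinj hd
      refine abs_avg _ _ _ _ _ _ _ (u_pos _).le hne (Finset.filter_subset _ _) pt (fun r hr => ?_)
      set S := (A.filter (fun x => ∀ p < h + 1, w x p = lam p)).filter (fun x => pt x = r) with hS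
      have hSQ : S ⊆ Q r := Finset.filter_subset_filter _ (Finset.filter_subset _ _)
      have hsl : ∀ v, sl (M ^ h) S v ⊆
          (sl (M ^ h) (Q r) v).filter (fun x => ∀ p < h, W r v x p = lam p) := by
        intro v x hx
        obtain ⟨x1, x2⟩ := Finset.mem_filter.1 hx
        obtain ⟨x3, x4⟩ := Finset.mem_filter.1 x1
        refine Finset.mem_filter.2 ⟨Finset.mem_filter.2 ⟨hSQ x1, x2⟩, fun p hp => ?_⟩
        have := (Finset.mem_filter.1 x3).2 p (by omega)
        simp only [w, if_neg hp.ne, x2, x4] at this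
        exact this
      by_cases hm : ∃ m, i ≤ m ∧ m < j ∧ σ m = h
      · obtain ⟨m, m1, m2, m3⟩ := hm
        by_cases hl : lab r = c
        · obtain ⟨e, rfl⟩ : ∃ e', e = e' + 1 := ⟨e - 1, by have := hd.pos (by omega); omega⟩
          have hmax : ∀ p, i ≤ p → p < j → σ p ≤ σ m := fun p p1 p2 => by
            have := (hσ p p1 p2).1
            omega
          have hlt : ∀ k, i ≤ k → k < j → k ≠ m → σ k < h ∧ lam (σ k) = c := fun k k1 k2 k3 => by
            refine ⟨?_, (hσ k k1 k2).2⟩
            have h1 := (hσ k k1 k2).1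
            have h2 : σ k ≠ σ m := fun e => k3 (hinj k m k1 k2 m1 m2 e)
            omega
          have hg := (hlab r hr).1 (by omega)
          rw [hl, ← m3] at hg
          refine split hM hR (hF c hc) (hF' c hc) m1 m2 hr hSQ (o := o)
            (fun x hx => by rw [m3]; exact hAo x (hQA r hx)) hg (fun v hv => ?_) (fun v hv => ?_)
          · rw [m3] at hv ⊢
            exact (hWe r v hv lam σ c i m e hc m1 (fun k k1 k2 => hlt k k1 (by omega) k2.ne)
              (fun k l k1 k2 l1 l2 => hinj k l k1 (by omega) l1 (by omega))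
              (hd.sub m1 m2 hmax le_rfl m2.le (Or.inr le_rfl))).mono (fun _ ha => ha) (hsl v)
          · rw [m3] at hv ⊢
            exact (hWe r v hv lam σ c (m + 1) j e hc m2
              (fun k k1 k2 => hlt k (by omega) k2 (by omega))
              (fun k l k1 k2 l1 l2 => hinj k l (by omega) k2 (by omega) l2)
              (hd.sub m1 m2 hmax (by omega) le_rfl (Or.inl (by omega)))).mono (fun _ ha => ha)
              (hsl v)
        · have : S = ∅ := by
            refine Finset.eq_empty_of_forall_notMem (fun x hx => hl ?_)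
            obtain ⟨x3, x4⟩ := Finset.mem_filter.1 hx
            have := (Finset.mem_filter.1 x3).2 h (by omega)
            simp only [w, if_pos rfl, x4] at this
            rw [this, ← m3]
            exact (hσ m m1 m2).2
          rw [this]
          exact abs_empty _ _ _ _ _ _ (tau_pos _ _ _ _ _ _ _).le
      · refine abs_avg _ _ _ (Q r) _ _ _ (u_pos _).le hr hSQ (fun x => x / M ^ h) (fun v hv => ?_)
        refine (hWe r v hv lam σ c i j e hc hij (fun k k1 k2 => ⟨?_, (hσ k k1 k2).2⟩) hinj hd).mono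
          (fun _ ha => ha) (hsl v)
        have h1 := (hσ k k1 k2).1
        have h2 : σ k ≠ h := fun e => hm ⟨k, k1, k2, e⟩
        omega
    · have hw : ∀ r v, ∀ x ∈ sl (M ^ h) (Q r) v, wt q M (h + 1) (w x) =
          (if lab r = q then M else 1) * wt q M h (W r v x) := by
        intro r v x hx
        obtain ⟨x1, x2⟩ := Finset.mem_filter.1 hx
        have x4 := (Finset.mem_filter.1 x1).2
        unfold wt
        rw [Finset.prod_range_succ, mul_comm]
        congr 1
        · simp only [w, if_pos rfl, x4]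
        · refine Finset.prod_congr rfl (fun p hp => ?_)
          simp only [w, if_neg (Finset.mem_range.1 hp).ne, x2, x4]
      have hr : ∀ r ∈ range n, ∑ x ∈ Q r, wt q M (h + 1) (w x) ≤ M * (P * M) ^ h := by
        intro r _
        rcases (Q r).eq_empty_or_nonempty with he | hne
        · simp [he]
        have hsum : ∀ V : Finset ℕ, (∀ x ∈ Q r, x / M ^ h ∈ V) →
            ∑ x ∈ Q r, wt q M (h + 1) (w x) ≤
              V.card * ((if lab r = q then M else 1) * (P * M) ^ h) := by
          intro V hV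
          rw [← Finset.sum_fiberwise_of_maps_to hV, ← smul_eq_mul]
          refine Finset.sum_le_card_nsmul _ _ _ (fun v _ => ?_)
          refine (Finset.sum_congr rfl (hw r v)).le.trans ?_
          rw [← Finset.mul_sum]
          exact Nat.mul_le_mul_left _ (hWc r v)
        by_cases hl : lab r = q
        · obtain ⟨v, hv⟩ := (hlab r hne).2 hl
          simpa [hl] using hsum {v} (fun x hx => by simp [hv x hx])
        · have := hsum (Ico (M * o) (M * o + M)) (fun x hx => by
            have h1 := hAo x (hQA r hx)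
            rw [pow_succ, ← Nat.div_div_eq_div_mul] at h1
            have h2 := Nat.div_add_mod (x / M ^ h) M
            have h3 := Nat.mod_lt (x / M ^ h) hM
            rw [h1] at h2
            exact Finset.mem_Ico.2 (by omega))
          simpa [hl] using this
      have hnP : n ≤ P := by
        have : Real.log A.card ≤ Real.log n0 := by
          rcases Nat.eq_zero_or_pos A.card with h0 | h0
          · rw [h0, Nat.cast_zero, Real.log_zero]
            exact Real.log_natCast_nonneg _
          · exact Real.log_le_log (by exact_mod_cast h0) (by exact_mod_cast hAn)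
        have h2 : (n : ℝ) ≤ P := hn.trans (le_trans (by gcongr) hP)
        exact_mod_cast h2
      rw [← Finset.sum_fiberwise_of_maps_to (fun x hx => Finset.mem_range.2 (hpt x hx))]
      refine (Finset.sum_le_card_nsmul _ _ _ hr).trans ?_
      rw [card_range, smul_eq_mul, pow_succ]
      calc n * (M * (P * M) ^ h) ≤ P * (M * (P * M) ^ h) := Nat.mul_le_mul_right _ hnP
        _ = _ := by ring

end Pool.Agent.P.MP_4cb405_co.Dp
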