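import Mathlib
import Pool.Agent.P.MP_4cb405_co.Dp.E

set_option autoImplicit false

namespace Pool.Agent.P.MP_4cb405_co.Dp

open Finset

open Classical in
/-- A popular word with many slots of one colour. -/
theorem pick {q M P t : ℕ} (hq : 0 < q) (hM : 2 ≤ M) (hP : P ^ 2 ≤ M) (w : ℕ → ℕ → ℕ)
    (hw : ∀ x p, w x p ≤ q)
    (hs : ∑ x ∈ range (M ^ (2 * q * t)), wt q M (2 * q * t) (w x) ≤ (P * M) ^ (2 * q * t)) :
    ∃ (lam : ℕ → ℕ) (c : ℕ), c < q ∧ t ≤ ((range (2 * q * t)).filter (fun p => lam p = c)).card ∧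
      u (1 + q * (2 * q * t)) * (range (M ^ (2 * q * t))).card ≤
        ((range (M ^ (2 * q * t))).filter (fun x => ∀ p < 2 * q * t, w x p = lam p)).card := by
  set N := 2 * q * t with hN
  set A := range (M ^ N) with hA
  let dead : ℕ → ℕ := fun x => ((range N).filter (fun p => w x p = q)).card
  have hwt : ∀ x, wt q M N (w x) = M ^ dead x := fun x => by
    unfold wt
    rw [Finset.prod_ite, Finset.prod_const, Finset.prod_const_one, mul_one]
  have hbad : 2 * (A.filter (fun x => ¬ dead x ≤ q * t)).card ≤ M ^ N := by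
    have h1 : (A.filter (fun x => ¬ dead x ≤ q * t)).card * M ^ (q * t + 1) ≤ (P * M) ^ N := by
      refine le_trans ?_ ((Finset.sum_le_sum_of_subset (Finset.filter_subset
        (fun x => ¬ dead x ≤ q * t) A)).trans hs)
      rw [← smul_eq_mul]
      refine Finset.card_nsmul_le_sum _ _ _ (fun x hx => ?_)
      rw [hwt]
      exact Nat.pow_le_pow_right (by omega) (not_le.1 (Finset.mem_filter.1 hx).2)
    have h2 : (P * M) ^ N ≤ M ^ N * M ^ (q * t) := by
      rw [mul_pow, mul_comm, hN, mul_assoc, pow_mul P]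
      exact Nat.mul_le_mul_left _ (Nat.pow_le_pow_left hP _)
    have h3 := h1.trans h2
    rw [pow_succ, mul_comm (M ^ (q * t)), ← mul_assoc] at h3
    have h4 := Nat.le_of_mul_le_mul_right h3 (by positivity)
    nlinarith
  set Gd := A.filter (fun x => dead x ≤ q * t) with hGd
  have hG : M ^ N ≤ 2 * Gd.card := by
    have := Finset.card_filter_add_card_filter_not (s := A) (fun x => dead x ≤ q * t)
    rw [hA, card_range] at this
    rw [hA] at hbad
    rw [hGd, hA]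
    omega
  have hpos : (0 : ℝ) < u (1 + q * N) * A.card := by
    have : 0 < A.card := by rw [hA, card_range]; positivity
    exact mul_pos (u_pos _) (by exact_mod_cast this)
  obtain ⟨y, _, hy⟩ := Finset.exists_le_card_fiber_of_nsmul_le_card_of_maps_to
    (s := Gd) (t := Fintype.piFinset (fun _ : Fin N => range (q + 1)))
    (f := fun x (p : Fin N) => w x p) (b := u (1 + q * N) * (A.card : ℝ))
    (fun x _ => Fintype.mem_piFinset.2 (fun p => Finset.mem_range.2 (Nat.lt_succ_of_le (hw x p))))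
    ⟨fun _ => 0, Fintype.mem_piFinset.2 (fun p => by simp)⟩ (by
      have h1 : ((q + 1 : ℕ) : ℝ) ^ N ≤ 2 ^ (q * N) := by
        have h0 : q + 1 ≤ 2 ^ q := Nat.lt_two_pow_self
        rw [pow_mul (2 : ℝ) q N]
        exact_mod_cast Nat.pow_le_pow_left h0 N
      have h2 : ((M ^ N : ℕ) : ℝ) ≤ 2 * Gd.card := by exact_mod_cast hG
      rw [Fintype.card_piFinset, Finset.prod_const, card_range, card_univ, Fintype.card_fin,
        nsmul_eq_mul, Nat.cast_pow, hA, card_range]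
      calc _ ≤ 2 ^ (q * N) * (u (1 + q * N) * ((M ^ N : ℕ) : ℝ)) := by
            have := u_pos (1 + q * N)
            gcongr
        _ = (u (q * N) * 2 ^ (q * N)) * (((M ^ N : ℕ) : ℝ) / 2) := by rw [u_add, u_one]; ring
        _ ≤ _ := by rw [u_mul_two_pow]; linarith)
  obtain ⟨x0, hx0⟩ : (Gd.filter (fun x => (fun p : Fin N => w x p) = y)).Nonempty :=
    Finset.card_pos.1 (by exact_mod_cast lt_of_lt_of_le hpos hy)
  obtain ⟨g0, g1⟩ := Finset.mem_filter.1 hx0
  obtain ⟨c, hc, hc2⟩ := Finset.exists_le_card_fiber_of_mul_le_card_of_maps_to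
    (s := (range N).filter (fun p => ¬ w x0 p = q)) (t := range q) (f := w x0) (n := t)
    (fun p hp => Finset.mem_range.2 (lt_of_le_of_ne (hw x0 p) (Finset.mem_filter.1 hp).2))
    ⟨0, by simpa using hq⟩ (by
      have h1 := Finset.card_filter_add_card_filter_not (s := range N) (fun p => w x0 p = q)
      have h2 : dead x0 ≤ q * t := (Finset.mem_filter.1 g0).2
      have h3 : N = q * t + q * t := by rw [hN]; ring
      simp only [dead] at h2
      rw [card_range] at h1 ⊢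
      omega)
  refine ⟨w x0, c, by simpa using hc, hc2.trans (Finset.card_le_card
    (Finset.filter_subset_filter _ (Finset.filter_subset _ _))), hy.trans ?_⟩
  refine Nat.cast_le.2 (Finset.card_le_card (fun x hx => ?_))
  obtain ⟨x1, x2⟩ := Finset.mem_filter.1 hx
  exact Finset.mem_filter.2 ⟨(Finset.mem_filter.1 x1).1,
    fun p hp => congrFun (x2.trans g1.symm) ⟨p, hp⟩⟩

theorem enum (S : Finset ℕ) (n : ℕ) (h : n ≤ S.card) :
    ∃ g : ℕ → ℕ, (∀ i < n, g i ∈ S) ∧ ∀ i j, i < j → j < n → g i < g j := by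
  refine ⟨fun i => if k : i < n then S.orderEmbOfCardLe h ⟨i, k⟩ else 0, fun i hi => ?_,
    fun i j hij hj => ?_⟩
  · simp only [dif_pos hi]
    exact Finset.orderEmbOfCardLe_mem _ _ _
  · simp only [dif_pos hj, dif_pos (hij.trans hj)]
    exact (S.orderEmbOfCardLe h).strictMono hij

theorem geom (d m : ℕ) : 2 * d * ∑ j ∈ range m, (2 * d + 1) ^ j + 1 = (2 * d + 1) ^ m := by
  induction m with
  | zero => simp
  | succ m ih => rw [Finset.sum_range_succ, pow_succ, ← ih]; ring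

theorem numP (B x : ℕ) (hB : 4 ≤ B) (hx : x ≤ B * B) :
    Real.log ((2 ^ x : ℕ) : ℝ) / u (B + 4) + 1 ≤ ((2 ^ (4 * B) : ℕ) : ℝ) := by
  have h1 : Real.log ((2 ^ x : ℕ) : ℝ) ≤ x := by
    rw [Nat.cast_pow, Real.log_pow]
    have := Real.log_le_sub_one_of_pos (show (0 : ℝ) < 2 by norm_num)
    have h0 : (0 : ℝ) ≤ x := by positivity
    push_cast
    nlinarith
  have h2 : x * 2 ^ (B + 4) + 1 ≤ 2 ^ (4 * B) := by
    have k1 : B < 2 ^ B := Nat.lt_two_pow_self
    have k2 : x + 1 ≤ 2 ^ B * 2 ^ B := by nlinarith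
    have k3 : 1 ≤ 2 ^ (B + 4) := Nat.one_le_two_pow
    calc _ ≤ (x + 1) * 2 ^ (B + 4) := by nlinarith
      _ ≤ 2 ^ B * 2 ^ B * 2 ^ (B + 4) := Nat.mul_le_mul_right _ k2
      _ = 2 ^ (3 * B + 4) := by ring
      _ ≤ _ := Nat.pow_le_pow_right (by norm_num) (by omega)
  have h3 : Real.log ((2 ^ x : ℕ) : ℝ) / u (B + 4) ≤ x * 2 ^ (B + 4) := by
    rw [div_le_iff₀ (u_pos _), mul_assoc, mul_comm _ (u _), u_mul_two_pow, mul_one]
    exact h1
  have h4 : (x : ℝ) * 2 ^ (B + 4) + 1 ≤ ((2 ^ (4 * B) : ℕ) : ℝ) := by exact_mod_cast h2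
  linarith

theorem numF (q t K d g E : ℕ) (hq : 0 < q) (ht : 1 ≤ t) (hd : 1 ≤ d) (hK : 30 * q ≤ K)
    (e : E = 2 * d * g + 1) :
    2 * (4 * t * K * (g + E)) + q + 3 + 2 * (4 * t * (K * E)) + 1 ≤ K * E * (21 * t) := by
  have k1 : 2 * g ≤ E := by nlinarith
  have k2 : t * K * (2 * g) ≤ t * K * E := Nat.mul_le_mul_left _ k1
  have k3 : 1 * K * 1 ≤ t * K * E := by gcongr; omega
  nlinarith

theorem numC (q t K d g E l : ℕ) (hq : 0 < q) (ht : 1 ≤ t) (hd : d ≤ t)
    (hK : K = 30 * q ^ 2 * (l + 1)) (e : E = 2 * d * g + 1) :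
    1 + q * (2 * q * t) + 1 + (d * (4 * t * K * g + q + 2 + 1) + l * (q * (21 * t)) + t * (K * E)) ≤
      4 * t * (K * E) + 0 := by
  have k1 : t * K * 1 ≤ t * K * E := by gcongr; omega
  have k2 : d * (q + 3) ≤ t * (q + 3) := Nat.mul_le_mul_right _ hd
  have k3 : 2 + 2 * q ^ 2 + (q + 3) + 21 * l * q ≤ K := by
    rw [hK]
    nlinarith [Nat.zero_le (q ^ 2 * l), Nat.mul_le_mul_left (l * q) hq]
  have k4 := Nat.mul_le_mul_left t k3
  have k5 : t * K * E = t * K * (2 * d * g) + t * K := by rw [e]; ring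
  nlinarith

open Classical in
theorem core (q : ℕ) (hq : 0 < q) (f : ℕ → ℕ → ℕ) (hf : ∀ x y, f x y < q) (n d : ℕ)
    (hd1 : 1 ≤ d) (hdt : d ≤ n + 1) (ρ : ℕ → ℕ) (hρ : ∀ k < n, ρ k < n)
    (hinj : ∀ k < n, ∀ l < n, ρ k = ρ l → k = l)
    (hd : ∀ k < n, ((range n).filter (fun m => ∀ p, ((m ≤ p ∧ p ≤ k) ∨ (k ≤ p ∧ p ≤ m)) →
      ρ m ≤ ρ p)).card ≤ d) :
    ∃ c < q, ∃ a : ℕ → ℕ,
      (∀ l ≤ n, a l < 2 ^ (3840 * q ^ 3 * 3 ^ (q - 1) * (n + 1) ^ 2 * (Nat.log 2 (n + 1) + 1) *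
        d ^ (q - 1))) ∧ (∀ k l, k < l → l ≤ n → a k < a l ∧ f (a k) (a l) = c) ∧
      ∀ k < n, ∀ l < n, ρ k < ρ l → a (l + 1) - a l < a (k + 1) - a k := by
  set t := n + 1 with ht
  set l := Nat.log 2 t with hl
  set K := 30 * q ^ 2 * (l + 1) with hK
  let G : ℕ → ℕ := fun m => ∑ j ∈ range m, (2 * d + 1) ^ j
  let φ : ℕ → ℕ := fun c => K * (2 * d + 1) ^ (q - 1 - c)
  let b : ℕ → ℕ := fun c => 4 * t * φ c
  let T : ℕ → ℕ := fun c => 4 * t * K * G (q - c)
  have ht1 : 1 ≤ t := by omega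
  have hK1 : 30 * q ≤ K := by rw [hK]; nlinarith [Nat.zero_le (q ^ 2 * l)]
  have hE : ∀ c < q, ∃ g E, E = 2 * d * g + 1 ∧ E = (2 * d + 1) ^ (q - 1 - c) ∧ φ c = K * E ∧
      T (c + 1) = 4 * t * K * g ∧ T c = 4 * t * K * (g + E) := by
    intro c hc
    obtain ⟨r, rfl⟩ : ∃ r, q = c + 1 + r := ⟨q - 1 - c, by omega⟩
    have e1 : c + 1 + r - 1 - c = r := by omega
    have e2 : c + 1 + r - c = r + 1 := by omega
    have e3 : c + 1 + r - (c + 1) = r := by omega
    exact ⟨G r, (2 * d + 1) ^ r, (geom d r).symm, by rw [e1], by simp only [φ, e1],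
      by simp only [T, e3], by simp only [T, e2, G, Finset.sum_range_succ]⟩
  set B := T 0 with hB
  obtain ⟨g0, E0, a1, a2, -, -, a5⟩ := hE 0 hq
  have hB1 : 16 * q * t ≤ B := by
    rw [hB, a5]
    have : 1 ≤ g0 + E0 := by omega
    calc 16 * q * t ≤ 4 * t * K * 1 := by nlinarith
      _ ≤ _ := Nat.mul_le_mul_left _ this
  have hB4 : 4 ≤ B := by nlinarith
  obtain ⟨w, hwq, hwe, hwc⟩ := struct (f := f) (q := q) (M := 2 ^ (8 * B)) (R := 21 * t)
    (P := 2 ^ (4 * B)) (n0 := 2 ^ (8 * B * (2 * q * t))) (b := b) (γ := fun c => T (c + 1) + q + 2)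
    (φ := φ) (F := fun c => 2 * T c + q + 3 + 2 * b c + 1) (kk := fun c => 2 * T c + q + 3)
    (ε := u (B + 4)) (by positivity) (by positivity) (u_pos _) (fun c hc => by
      obtain ⟨g, E, e1, -, e3, -, e5⟩ := hE c hc
      simp only [b, e3, e5]
      exact numF q t K d g E hq ht1 hd1 hK1 e1) (fun c _ => le_rfl)
    (fun H S hS => carve q hq f hf H T b (fun c hc => by
      obtain ⟨g, E, -, -, e3, e4, e5⟩ := hE c hc
      simp only [b, e3, e4, e5]
      ring) (by simp [T, G]) S hS)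
    (numP B _ hB4 (by nlinarith)) (2 * q * t) (range ((2 ^ (8 * B)) ^ (2 * q * t))) 0
    (by rw [card_range, ← pow_mul]) (fun x hx => Nat.div_eq_of_lt (Finset.mem_range.1 hx))
  have hM2 : 2 ≤ 2 ^ (8 * B) := by
    calc 2 = 2 ^ 1 := rfl
      _ ≤ _ := Nat.pow_le_pow_right (by norm_num) (by omega)
  obtain ⟨lam, c, hc, hsl, hden⟩ := pick (t := t) hq hM2 (by rw [← pow_mul]; apply le_of_eq; congr 1; ring)
    w hwq hwc
  obtain ⟨g, hg1, hg2⟩ := enum _ n ((Nat.le_succ n).trans hsl)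
  let σ : ℕ → ℕ := fun k => g (n - 1 - ρ k)
  have hσ : ∀ k < n, ∀ l < n, ρ k < ρ l → σ l < σ k := fun k hk l hl h =>
    hg2 _ _ (by have := hρ l hl; omega) (by omega)
  set A := range ((2 ^ (8 * B)) ^ (2 * q * t)) with hA
  have hAne : A.Nonempty := ⟨0, Finset.mem_range.2 (by positivity)⟩
  have hAc : (0 : ℝ) < A.card := by exact_mod_cast hAne.card_pos
  have habs := hwe hAne lam σ c 0 n d hc (Nat.zero_le _) (fun k _ hk => by
      have := Finset.mem_filter.1 (hg1 (n - 1 - ρ k) (by omega))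
      exact ⟨Finset.mem_range.1 this.1, this.2⟩)
    (fun k l _ hk _ hl h => by
      rcases lt_trichotomy (ρ k) (ρ l) with h1 | h1 | h1
      · exact absurd h (hσ k hk l hl h1).ne'
      · exact hinj k hk l hl h1
      · exact absurd h (hσ l hl k hk h1).ne)
    (fun k _ hk => le_trans (Finset.card_le_card (fun m hm => by
      obtain ⟨m1, m2⟩ := Finset.mem_filter.1 hm
      have m3 := (Finset.mem_Ico.1 m1).2
      refine Finset.mem_filter.2 ⟨Finset.mem_range.2 m3, fun p hp => ?_⟩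
      by_contra hlt
      exact absurd (m2 p hp) (not_le.2 (hσ p (by omega) m m3 (not_le.1 hlt))))) (hd k hk))
  set S := A.filter (fun x => ∀ p < 2 * q * t, w x p = lam p) with hS
  have hτ : tau q (21 * t) (b c) (T (c + 1) + q + 2) (φ c) (n + 1 - 0) d < S.card / A.card := by
    rw [lt_div_iff₀ hAc]
    refine lt_of_lt_of_le (mul_lt_mul_of_pos_right ?_ hAc) hden
    have h1 : tau q (21 * t) (b c) (T (c + 1) + q + 2) (φ c) (n + 1 - 0) d ≤
        u (1 + q * (2 * q * t) + 1) * 2 ^ 0 := by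
      refine u_two_le ?_
      obtain ⟨g, E, e1, -, e3, e4, -⟩ := hE c hc
      simp only [cost, b, e3, e4, Nat.sub_zero, ← ht, ← hl]
      exact numC q t K d g E l hq ht1 hdt hK e1
    rw [u_add, u_one] at h1
    have := u_pos (1 + q * (2 * q * t))
    linarith
  have hmax : 0 < max ((S.card : ℝ) / A.card -
      tau q (21 * t) (b c) (T (c + 1) + q + 2) (φ c) (n + 1 - 0) d) 0 :=
    lt_max_of_lt_left (by linarith)
  obtain ⟨a, ha, hin⟩ := habs Unit {()} (fun _ => 1) (fun _ => S) (fun _ => zero_le_one)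
    (fun _ _ => Subset.rfl) (by simpa using hmax)
  simp only [sum_singleton, one_mul] at hin
  have hin' : In a 0 n S := by
    by_contra hno
    rw [if_neg hno] at hin
    exact absurd hin (not_le.2 (mul_pos (u_pos _) hmax))
  refine ⟨c, hc, a, fun k hk => ?_, fun k l h1 h2 => ha.col k l (Nat.zero_le _) h1 h2,
    fun k hk l hl h => ?_⟩
  · refine lt_of_lt_of_le (Finset.mem_range.1 (Finset.mem_filter.1 (hin' k (Nat.zero_le _) hk)).1) ?_
    rw [← pow_mul]
    refine Nat.pow_le_pow_right (by norm_num) ?_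
    have k1 : E0 ≤ 3 ^ (q - 1) * d ^ (q - 1) := by
      rw [a2, ← mul_pow, Nat.sub_zero]
      exact Nat.pow_le_pow_left (by omega) _
    have k2 : g0 + E0 ≤ 2 * (3 ^ (q - 1) * d ^ (q - 1)) := by nlinarith
    calc 8 * B * (2 * q * t) ≤ 8 * (4 * t * K * (2 * (3 ^ (q - 1) * d ^ (q - 1)))) * (2 * q * t) := by
          rw [hB, a5]
          gcongr
      _ = _ := by rw [hK]; ring
  · exact lt_of_lt_of_le (ha.win l (Nat.zero_le _) hl).2 (le_trans
      (Nat.pow_le_pow_right (by positivity) (hσ k hk l hl h)) (ha.win k (Nat.zero_le _) hk).1)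

end Pool.Agent.P.MP_4cb405_co.Dp
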